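import Mathlib
import Pool.Agent.H364R2.EEb

set_option autoImplicit false

/-!
# Fractions close to `e`

The lemmas up to `to_int`, and the proof of `near` for one sign, are those of the starting file
`Pool/Agent/Results/MP_58ae59_nt/PowersNearOne.lean`.
-/

namespace Pool.Agent.J4H85.EE

open Real Pool.Agent.H43R2.Cplx.EMeas Pool.Agent.H364R2.EE

theorem index_ge (n0 : ℕ) (b : ℤ) (hb : (q n0 : ℤ) ≤ b) :
    ∃ n : ℕ, n0 ≤ n ∧ (q n : ℤ) ≤ b ∧ b < q (n + 1) := by
  classical
  have hb1 : 1 ≤ b := by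
    have h0 := (q_pos n0).1
    omega
  have hex : ∃ n, b < q (n + 1) := by
    refine ⟨b.toNat, ?_⟩
    have h1 := q_growth b.toNat
    have h2 : b.toNat < 2 ^ b.toNat := Nat.lt_two_pow_self
    have h3 : (b.toNat : ℤ) = b := Int.toNat_of_nonneg (by omega)
    have h4 : b.toNat < q (b.toNat + 1) := lt_of_lt_of_le h2 h1
    have h5 : (b.toNat : ℤ) < (q (b.toNat + 1) : ℤ) := by exact_mod_cast h4
    omega
  have h1 : b < q (Nat.find hex + 1) := Nat.find_spec hex
  have h3 : n0 ≤ Nat.find hex := by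
    by_contra hc
    have h2 : q (Nat.find hex + 1) ≤ q n0 := q_mono (by omega)
    have h4 : (q (Nat.find hex + 1) : ℤ) ≤ q n0 := by exact_mod_cast h2
    omega
  refine ⟨Nat.find hex, h3, ?_, h1⟩
  rcases Nat.eq_zero_or_pos (Nat.find hex) with h0 | h0
  · rw [h0]
    simp only [q]
    exact_mod_cast hb1
  · have h2 : ¬ (b < q ((Nat.find hex - 1) + 1)) := Nat.find_min hex (by omega)
    rw [show Nat.find hex - 1 + 1 = Nat.find hex by omega] at h2
    omega

/-- basic inequalities -/
theorem basics1 (n : ℕ) (hn : 1 ≤ n) :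
    0 < (q n : ℝ) ∧ 0 < (q (n + 1) : ℝ) ∧ 0 < I n ∧ 0 < I (n + 1) ∧
    (q (n + 1) : ℝ) * I n ≤ 2 ∧ (4 * (n : ℝ) + 2) * (q n : ℝ) ≤ q (n + 1) ∧
    (q (n + 1) : ℝ) * I (n + 1) * n ≤ 1 / 2 := by
  have hq : 0 < (q n : ℝ) := by exact_mod_cast (q_pos n).1
  have hq1 : 0 < (q (n + 1) : ℝ) := by exact_mod_cast (q_pos n).2
  have hq0 : (0 : ℝ) ≤ q (n - 1) := by positivity
  have hi := I_pos n
  have hi' := I_pos (n + 1)
  have hqI := q_I n
  have hn' : (1 : ℝ) ≤ n := by exact_mod_cast hn
  have h1 : (4 * (n : ℝ) + 2) * (q n : ℝ) ≤ q (n + 1) := by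
    rw [q_rec n (by omega)]
    linarith
  have h2 : (q (n + 1) : ℝ) * I n ≤ 2 := by
    have : 0 < (q n : ℝ) * I (n + 1) := by positivity
    linarith
  refine ⟨hq, hq1, hi, hi', h2, h1, ?_⟩
  have h3 := I_bound n
  have h4 : (q (n + 1) : ℝ) * ((4 * (n : ℝ) + 6) * I (n + 1)) ≤ 2 :=
    (mul_le_mul_of_nonneg_left h3 hq1.le).trans h2
  have h5 : 0 < (q (n + 1) : ℝ) * I (n + 1) := mul_pos hq1 hi'
  nlinarith

/-- the product of the two coordinates -/
theorem prod_est (s b ε I0 I1 q0 q1 : ℝ) (hs : s * s = 1) (hqI : q1 * I0 + q0 * I1 = 2) :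
    (b * I1 + s * ε * q1) * (b * I0 - s * ε * q0) - 2 * s * (b * ε) =
      (b * I0) * (b * I1) - 2 * s * (b * ε) * (q0 * I1) - (ε * q0) * (ε * q1) := by
  have h : (b * I1 + s * ε * q1) * (b * I0 - s * ε * q0) =
      (b * I0) * (b * I1) + s * (b * ε) * (q1 * I0 - q0 * I1) - (s * s) * ((ε * q0) * (ε * q1)) := by
    ring
  rw [h, hs]
  have h2 : q1 * I0 = 2 - q0 * I1 := by linarith
  rw [h2]; ring

theorem sgn_sq (n : ℕ) : ((-1 : ℝ) ^ n) * ((-1 : ℝ) ^ n) = 1 := by
  rw [← mul_pow]; simp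

theorem abs_sgn (n : ℕ) : |((-1 : ℝ) ^ n)| = 1 := by
  rw [abs_pow]; simp

/-- turning an estimate for the product of the coordinates into an integer near `2 θ` -/
theorem to_int (n : ℕ) (X Y : ℤ) (θ K : ℝ)
    (h : |(X : ℝ) * Y - 2 * (-1) ^ n * θ| ≤ K) : ∃ N : ℤ, |2 * θ - N| ≤ K := by
  refine ⟨(-1) ^ n * (X * Y), ?_⟩
  have h1 : 2 * θ - (((-1) ^ n * (X * Y) : ℤ) : ℝ) =
      -((-1) ^ n) * ((X : ℝ) * Y - 2 * (-1) ^ n * θ) := by
    push_cast
    have := sgn_sq n
    linear_combination (-2 * θ) * this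
  rw [h1, abs_mul, abs_neg, abs_sgn, one_mul]
  exact h

theorem e_irr (A : ℕ) (hA : 1 ≤ A) (N : ℤ) : (A : ℝ) * exp 1 ≠ N := by
  intro h
  obtain ⟨n, -, hn⟩ := lower A hA N
  rw [h, sub_self, abs_zero] at hn
  have h2 : (0 : ℝ) < 1 / (8 * (4 * n + 3) * (A : ℝ)) := by
    have : (0 : ℝ) < (A : ℝ) := by exact_mod_cast hA
    positivity
  linarith


/-- if `b (b e - a)` is bounded and `b` is large, then `a / b` is one of the fractions
`r n / q n`, or `2 b (b e - a)` is close to an integer -/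
theorem near (C : ℝ) (hC : 1 ≤ C) (n : ℕ) (hn : 2 ≤ n) (a b : ℤ) (hqb : (q n : ℤ) ≤ b)
    (hbq : b < q (n + 1)) (h1 : |(b : ℝ) * (b * exp 1 - a)| ≤ C) :
    (∃ t : ℤ, a = t * r n ∧ b = t * q n) ∨
      ∃ N : ℤ, |2 * ((b : ℝ) * (b * exp 1 - a)) - N| ≤ 12 * C ^ 2 / n := by
  have hb0 : 0 < b := by
    have := (q_pos n).1
    omega
  have hbR : (0 : ℝ) < b := by exact_mod_cast hb0
  -- sign and absolute value of `b e - a`
  obtain ⟨σ, ε, hσ, hε, hεpos⟩ : ∃ σ ε : ℝ, σ * σ = 1 ∧ (b : ℝ) * exp 1 - a = σ * ε ∧ 0 < ε := by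
    have hne : (b : ℝ) * exp 1 - a ≠ 0 := by
      intro h
      have h2 := e_irr b.toNat (by omega) a
      apply h2
      have h3 : ((b.toNat : ℕ) : ℝ) = (b : ℝ) := by
        have : ((b.toNat : ℕ) : ℤ) = b := Int.toNat_of_nonneg hb0.le
        exact_mod_cast this
      rw [h3]
      linarith
    rcases lt_or_gt_of_ne hne with h | h
    · exact ⟨-1, -((b : ℝ) * exp 1 - a), by norm_num, by ring, by linarith⟩
    · exact ⟨1, (b : ℝ) * exp 1 - a, by norm_num, by ring, h⟩
  have habsσ : |σ| = 1 := by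
    have := abs_mul_abs_self σ
    nlinarith [abs_nonneg σ]
  have hσ' : σ = 1 ∨ σ = -1 := by
    rcases abs_eq (by norm_num : (0:ℝ) ≤ 1) |>.mp habsσ with h | h
    · exact Or.inl h
    · exact Or.inr h
  have h1 : (b : ℝ) * ε ≤ C := by
    rw [hε, show (b : ℝ) * (σ * ε) = σ * (b * ε) by ring, abs_mul, habsσ, one_mul,
      abs_of_pos (by positivity)] at h1
    exact h1
  have hqbR : (q n : ℝ) ≤ b := by exact_mod_cast hqb
  have hbqR : (b : ℝ) < q (n + 1) := by exact_mod_cast hbq
  obtain ⟨hq, hq1, hi, hi', hqi, hqq, hqi'⟩ := basics1 n (by omega)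
  have hnR : (2 : ℝ) ≤ n := by exact_mod_cast hn
  have hnpos : (0 : ℝ) < n := by linarith
  rcases lt_or_ge (b : ℝ) (2 * C * q n) with hcase | hcase
  · -- coordinates at level `n - 1`
    right
    obtain ⟨m, rfl⟩ : ∃ m, n = m + 1 := ⟨n - 1, by omega⟩
    obtain ⟨hq', -, hj, -, hqj, hqq', hqj'⟩ := basics1 m (by omega)
    obtain ⟨X, Y, ha, hbb, hX, hY⟩ := coords m a b
    rw [hε] at hX hY
    obtain ⟨s, hs, hss, habs⟩ : ∃ s : ℝ, s = (-1) ^ m * σ ∧ s * s = 1 ∧ |s| = 1 := by
      refine ⟨_, rfl, ?_, ?_⟩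
      · have := sgn_sq m
        linear_combination σ * σ * this + hσ
      · rw [abs_mul, abs_sgn, habsσ, one_mul]
    apply to_int m X Y
    have hkey := prod_est s b ε (I m) (I (m + 1)) (q m) (q (m + 1)) hss (q_I m)
    have hkey2 : (X : ℝ) * Y - 2 * (-1) ^ m * (b * (b * exp 1 - a)) =
        b * I m * (b * I (m + 1)) - 2 * s * (b * ε) * (q m * I (m + 1)) -
          ε * q m * (ε * q (m + 1)) := by
      rw [← hkey, hX, hY, hε, hs]; ring
    rw [hkey2]
    have hm1 : (1 : ℝ) ≤ m := by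
      have : 1 ≤ m := by omega
      exact_mod_cast this
    have hmpos : (0 : ℝ) < m := by linarith
    -- bounds
    have b1 : (b : ℝ) * I m ≤ 4 * C := by
      have h2 : (b : ℝ) * I m ≤ (2 * C * q (m + 1)) * I m := mul_le_mul_of_nonneg_right hcase.le hj.le
      have h3 : (2 * C) * (q (m + 1) * I m) ≤ (2 * C) * 2 :=
        mul_le_mul_of_nonneg_left hqj (by linarith)
      linarith
    have b2 : (b : ℝ) * I (m + 1) * m ≤ C := by
      have h2 : (b : ℝ) * I (m + 1) ≤ (2 * C * q (m + 1)) * I (m + 1) :=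
        mul_le_mul_of_nonneg_right hcase.le hi.le
      have h3 : (b : ℝ) * I (m + 1) * m ≤ (2 * C * q (m + 1)) * I (m + 1) * m :=
        mul_le_mul_of_nonneg_right h2 hmpos.le
      have h4 : (2 * C) * (q (m + 1) * I (m + 1) * m) ≤ (2 * C) * (1 / 2) :=
        mul_le_mul_of_nonneg_left hqj' (by linarith)
      linarith
    have b1' : 0 < (b : ℝ) * I m := mul_pos hbR hj
    have b2' : 0 < (b : ℝ) * I (m + 1) := mul_pos hbR hi
    have c1 : (b * I m) * (b * I (m + 1)) * m ≤ 4 * C * C := by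
      have : (b * I m) * (b * I (m + 1) * m) ≤ (4 * C) * C :=
        mul_le_mul b1 b2 (by positivity) (by linarith)
      linarith
    have hw : ε * q (m + 1) ≤ C := by
      have := mul_le_mul_of_nonneg_left hqbR hεpos.le
      linarith [mul_comm ε (b : ℝ)]
    have hw0 : 0 < ε * q (m + 1) := mul_pos hεpos hq
    have hu0 : 0 < ε * q m := mul_pos hεpos hq'
    have hu : ε * q m * m ≤ C := by
      have h2 : ε * ((4 * (m : ℝ) + 2) * q m) ≤ ε * q (m + 1) :=
        mul_le_mul_of_nonneg_left hqq' hεpos.le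
      nlinarith
    have c3 : (ε * q m) * (ε * q (m + 1)) * m ≤ C * C := by
      have : (ε * q m * m) * (ε * q (m + 1)) ≤ C * C := mul_le_mul hu hw hw0.le (by linarith)
      linarith
    have hqmm : (q m : ℝ) ≤ q (m + 1) := by nlinarith
    have c2 : (b * ε) * (q m * I (m + 1)) * m ≤ C * (1 / 2) := by
      have h2 : (q m : ℝ) * I (m + 1) * m ≤ q (m + 1) * I (m + 1) * m := by
        have : (q m : ℝ) * I (m + 1) ≤ q (m + 1) * I (m + 1) :=
          mul_le_mul_of_nonneg_right hqmm hi.le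
        exact mul_le_mul_of_nonneg_right this hmpos.le
      have h3 : (b * ε) * (q m * I (m + 1) * m) ≤ C * (1 / 2) :=
        mul_le_mul h1 (h2.trans hqj') (by positivity) (by linarith)
      linarith
    have c2' : 0 < (b * ε) * (q m * I (m + 1)) := by positivity
    have c1' : 0 < (b * I m) * (b * I (m + 1)) := by positivity
    have c3' : 0 < (ε * q m) * (ε * q (m + 1)) := by positivity
    have htot : |b * I m * (b * I (m + 1)) - 2 * s * (b * ε) * (q m * I (m + 1)) -
        ε * q m * (ε * q (m + 1))| ≤ (b * I m) * (b * I (m + 1)) +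
          2 * ((b * ε) * (q m * I (m + 1))) + (ε * q m) * (ε * q (m + 1)) := by
      have e1 : |2 * s * (b * ε) * (q m * I (m + 1))| =
          2 * ((b * ε) * (q m * I (m + 1))) := by
        rw [show 2 * s * (b * ε) * (q m * I (m + 1)) =
          s * (2 * ((b * ε) * (q m * I (m + 1)))) by ring, abs_mul, habs, one_mul,
          abs_of_pos (by linarith)]
      refine (abs_sub _ _).trans ?_
      rw [abs_of_pos c3']
      refine add_le_add ((abs_sub _ _).trans ?_) le_rfl
      rw [abs_of_pos c1', e1]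
    refine htot.trans ?_
    rw [le_div_iff₀ (by push_cast; linarith)]
    push_cast
    have hm2 : (m : ℝ) + 1 ≤ 2 * m := by linarith
    have hsum0 : 0 < (b * I m) * (b * I (m + 1)) +
          2 * ((b * ε) * (q m * I (m + 1))) + (ε * q m) * (ε * q (m + 1)) := by linarith
    have hC2 : C ≤ C ^ 2 := by nlinarith
    refine (mul_le_mul_of_nonneg_left hm2 hsum0.le).trans ?_
    have e2 : ((b * I m) * (b * I (m + 1)) +
          2 * ((b * ε) * (q m * I (m + 1))) + (ε * q m) * (ε * q (m + 1))) * (2 * m) =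
        2 * ((b * I m) * (b * I (m + 1)) * m) + 4 * ((b * ε) * (q m * I (m + 1)) * m) +
          2 * ((ε * q m) * (ε * q (m + 1)) * m) := by ring
    rw [e2]
    linarith
  · -- coordinates at level `n`
    obtain ⟨X, Y, ha, hbb, hX, hY⟩ := coords n a b
    have hpar := parity n hbb
    by_cases hY0 : Y = 0
    · left
      subst hY0
      have h3 : X = 2 * (X / 2) := by omega
      refine ⟨X / 2, ?_, ?_⟩
      · have : 2 * a = 2 * (X / 2 * r n) := by
          rw [ha, ← mul_assoc, ← h3]; ring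
        linarith
      · have : 2 * b = 2 * (X / 2 * q n) := by
          rw [hbb, ← mul_assoc, ← h3]; ring
        linarith
    · right
      rw [hε] at hX hY
      obtain ⟨s, hs, hss, habs⟩ : ∃ s : ℝ, s = (-1) ^ n * σ ∧ s * s = 1 ∧ |s| = 1 := by
        refine ⟨_, rfl, ?_, ?_⟩
        · have := sgn_sq n
          linear_combination σ * σ * this + hσ
        · rw [abs_mul, abs_sgn, habsσ, one_mul]
      apply to_int n X Y
      have hkey := prod_est s b ε (I n) (I (n + 1)) (q n) (q (n + 1)) hss (q_I n)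
      have hY' : (Y : ℝ) = b * I n - s * ε * q n := by rw [hY, hs]; ring
      have hkey2 : (X : ℝ) * Y - 2 * (-1) ^ n * (b * (b * exp 1 - a)) =
          b * I n * (b * I (n + 1)) - 2 * s * (b * ε) * (q n * I (n + 1)) -
            ε * q n * (ε * q (n + 1)) := by
        rw [← hkey, hX, hY, hε, hs]; ring
      rw [hkey2]
      have hu0 : 0 < ε * q n := mul_pos hεpos hq
      have hw0 : 0 < ε * q (n + 1) := mul_pos hεpos hq1
      have hu : ε * q n ≤ 1 / 2 := by
        have h2 : (b : ℝ) * ε ≥ (2 * C * q n) * ε := mul_le_mul_of_nonneg_right hcase hεpos.le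
        have h3 : (2 * C) * (ε * q n) ≤ (2 * C) * (1 / 2) := by nlinarith
        exact le_of_mul_le_mul_left h3 (by linarith)
      have hbI : 1 / 2 ≤ (b : ℝ) * I n := by
        have hbI0 : 0 < (b : ℝ) * I n := mul_pos hbR hi
        have hs1 : s = 1 ∨ s = -1 := by
          rcases abs_eq (by norm_num : (0:ℝ) ≤ 1) |>.mp habs with h | h
          · exact Or.inl h
          · exact Or.inr h
        rcases hs1 with hs | hs
        · rw [hs] at hY'
          rcases lt_or_gt_of_ne hY0 with h | h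
          · have h5 : (Y : ℝ) ≤ -1 := by
              have : Y ≤ -1 := by omega
              exact_mod_cast this
            exfalso
            nlinarith
          · have h5 : (1 : ℝ) ≤ Y := by
              have : 1 ≤ Y := by omega
              exact_mod_cast this
            nlinarith
        · rw [hs] at hY'
          have hYpos : (0 : ℝ) < Y := by rw [hY']; nlinarith
          have h5 : (1 : ℝ) ≤ Y := by
            have : 0 < Y := by exact_mod_cast hYpos
            have : 1 ≤ Y := by omega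
            exact_mod_cast this
          nlinarith
      have hw : ε * q (n + 1) ≤ 4 * C := by
        have h2 : (ε * q (n + 1)) * (b * I n) = (b * ε) * (q (n + 1) * I n) := by ring
        have h3 : (b * ε) * (q (n + 1) * I n) ≤ C * 2 :=
          mul_le_mul h1 hqi (by positivity) (by linarith)
        have h4 : (ε * q (n + 1)) * (1 / 2) ≤ (ε * q (n + 1)) * (b * I n) :=
          mul_le_mul_of_nonneg_left hbI hw0.le
        linarith
      have b1 : (b : ℝ) * I n ≤ 2 := (mul_le_mul_of_nonneg_right hbqR.le hi.le).trans hqi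
      have b2 : (b : ℝ) * I (n + 1) * n ≤ 1 / 2 := by
        have h2 : (b : ℝ) * I (n + 1) ≤ q (n + 1) * I (n + 1) :=
          mul_le_mul_of_nonneg_right hbqR.le hi'.le
        exact (mul_le_mul_of_nonneg_right h2 hnpos.le).trans hqi'
      have b2' : 0 < (b : ℝ) * I (n + 1) := mul_pos hbR hi'
      have b1' : 0 < (b : ℝ) * I n := mul_pos hbR hi
      have c1 : (b * I n) * (b * I (n + 1)) * n ≤ 1 := by
        have : (b * I n) * (b * I (n + 1) * n) ≤ 2 * (1 / 2) :=
          mul_le_mul b1 b2 (by positivity) (by norm_num)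
        linarith
      have hqmm : (q n : ℝ) ≤ q (n + 1) := by nlinarith
      have c2 : (b * ε) * (q n * I (n + 1)) * n ≤ C * (1 / 2) := by
        have h2 : (q n : ℝ) * I (n + 1) * n ≤ q (n + 1) * I (n + 1) * n := by
          have : (q n : ℝ) * I (n + 1) ≤ q (n + 1) * I (n + 1) :=
            mul_le_mul_of_nonneg_right hqmm hi'.le
          exact mul_le_mul_of_nonneg_right this hnpos.le
        have h3 : (b * ε) * (q n * I (n + 1) * n) ≤ C * (1 / 2) :=
          mul_le_mul h1 (h2.trans hqi') (by positivity) (by linarith)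
        linarith
      have hu' : ε * q n * n ≤ C := by
        have h2 : ε * ((4 * (n : ℝ) + 2) * q n) ≤ ε * q (n + 1) :=
          mul_le_mul_of_nonneg_left hqq hεpos.le
        nlinarith
      have c3 : (ε * q n) * (ε * q (n + 1)) * n ≤ C * (4 * C) := by
        have : (ε * q n * n) * (ε * q (n + 1)) ≤ C * (4 * C) :=
          mul_le_mul hu' hw hw0.le (by linarith)
        linarith
      have c2' : 0 < (b * ε) * (q n * I (n + 1)) := by positivity
      have c1' : 0 < (b * I n) * (b * I (n + 1)) := by positivity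
      have c3' : 0 < (ε * q n) * (ε * q (n + 1)) := by positivity
      have htot : |b * I n * (b * I (n + 1)) - 2 * s * (b * ε) * (q n * I (n + 1)) -
          ε * q n * (ε * q (n + 1))| ≤ (b * I n) * (b * I (n + 1)) +
            2 * ((b * ε) * (q n * I (n + 1))) + (ε * q n) * (ε * q (n + 1)) := by
        have e1 : |2 * s * (b * ε) * (q n * I (n + 1))| =
            2 * ((b * ε) * (q n * I (n + 1))) := by
          rw [show 2 * s * (b * ε) * (q n * I (n + 1)) =
            s * (2 * ((b * ε) * (q n * I (n + 1)))) by ring, abs_mul, habs, one_mul,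
            abs_of_pos (by linarith)]
        refine (abs_sub _ _).trans ?_
        rw [abs_of_pos c3']
        refine add_le_add ((abs_sub _ _).trans ?_) le_rfl
        rw [abs_of_pos c1', e1]
      refine htot.trans ?_
      rw [le_div_iff₀ hnpos]
      have hC2 : C ≤ C ^ 2 := by nlinarith
      have hC3 : 1 ≤ C ^ 2 := by nlinarith
      have e2 : ((b * I n) * (b * I (n + 1)) +
            2 * ((b * ε) * (q n * I (n + 1))) + (ε * q n) * (ε * q (n + 1))) * n =
          (b * I n) * (b * I (n + 1)) * n + 2 * ((b * ε) * (q n * I (n + 1)) * n) +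
            (ε * q n) * (ε * q (n + 1)) * n := by ring
      rw [e2]
      linarith


end Pool.Agent.J4H85.EE
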