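import Mathlib
import Pool.Agent.J4H85.EE.Near

set_option autoImplicit false

/-!
# Integers `a, b` with `b (b e - a)` close to a rational multiple of `e`

If `|b (b e - a) - ρ e| ≤ K / b`, `ρ ≠ 0` rational, then `(b, a) = t (q n, r n)` and
`t ^ 2 = |ρ| e (N + 1 / (2 N) + …)` with `N = 2 n + 1`, so that `N`, `t ^ 2` give again such a pair
(for `- ρ'`), with `n` of the size of the logarithm of `b`.  After three steps the exponents of `2`
contradict each other.
-/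

namespace Pool.Agent.J4H85.EE

open Real Pool.Agent.H43R2.Cplx.EMeas Pool.Agent.H364R2.EE

/-- `κ = 1 / (q n I n)` -/
theorem kappa (n : ℕ) (hn : 2 ≤ n) : ∃ κ : ℝ, 0 < κ ∧ κ * (q n * I n) = 1 ∧
    |(2 * n + 1) * (κ - (2 * n + 1)) - 1 / 2| ≤ 2 / n ∧ κ ≤ 2 * n + 2 := by
  have hq : 0 < (q n : ℝ) := by exact_mod_cast (q_pos n).1
  have hi := I_pos n
  have hi1 := I_pos (n + 1)
  have hi2 := I_pos (n + 2)
  have hnR : (2 : ℝ) ≤ n := by exact_mod_cast hn
  obtain ⟨k, rfl⟩ : ∃ k, n = k + 2 := ⟨n - 2, by omega⟩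
  set n := k + 2 with hnk
  -- ratios
  have e1 : (q (n + 1) : ℝ) = (4 * (n : ℝ) + 2) * q n + q (k + 1) := by
    rw [q_rec n (by omega)]
    rfl
  have e2 : (q n : ℝ) = (4 * (n : ℝ) - 2) * q (k + 1) + q k := by
    have : (q (k + 1 + 1) : ℝ) = (4 * ((k + 1 : ℕ) : ℝ) + 2) * q (k + 1) + q (k + 1 - 1) :=
      q_rec (k + 1) (by omega)
    rw [hnk, show k + 2 = k + 1 + 1 from rfl, this, show k + 1 - 1 = k from rfl]
    push_cast
    ring
  have hqk1 : 0 < (q (k + 1) : ℝ) := by exact_mod_cast (q_pos k).2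
  have hqk : 0 < (q k : ℝ) := by exact_mod_cast (q_pos k).1
  have hqm : (q k : ℝ) ≤ q (k + 1) := by exact_mod_cast q_mono (by omega)
  have hI : I n = (4 * n + 6) * I (n + 1) + I (n + 2) := by
    have := I_rec n
    linarith
  have hI' : I (n + 2) ≤ I (n + 1) := by
    have h1 := I_bound (n + 1)
    push_cast at h1
    have h2 : n + 1 + 1 = n + 2 := rfl
    rw [h2] at h1
    nlinarith
  have hqI := q_I n
  set x : ℝ := q (k + 1) / q n with hx
  set y : ℝ := I (n + 1) / I n with hy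
  have hx0 : 0 < x := by positivity
  have hy0 : 0 < y := by positivity
  have hx1 : x * (4 * n - 2) ≤ 1 := by
    rw [hx, div_mul_eq_mul_div, div_le_one hq]
    nlinarith
  have hx2 : 1 ≤ x * (4 * n - 1) := by
    rw [hx, div_mul_eq_mul_div, one_le_div hq]
    nlinarith
  have hy1 : y * (4 * n + 6) ≤ 1 := by
    rw [hy, div_mul_eq_mul_div, div_le_one hi]
    nlinarith
  have hy2 : 1 ≤ y * (4 * n + 7) := by
    rw [hy, div_mul_eq_mul_div, one_le_div hi]
    nlinarith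
  refine ⟨(4 * n + 2 + x + y) / 2, by positivity, ?_, ?_, ?_⟩
  · have h1 : x * q n = q (k + 1) := by rw [hx]; field_simp
    have h2 : y * I n = I (n + 1) := by rw [hy]; field_simp
    have h3 : (4 * (n : ℝ) + 2 + x + y) / 2 * (q n * I n) =
        (((4 * (n : ℝ) + 2) * q n + x * q n) * I n + q n * (y * I n)) / 2 := by ring
    rw [h3, h1, h2, ← e1, hqI]
    norm_num
  · have hn0 : (0 : ℝ) < n := by linarith
    rw [le_div_iff₀ hn0]
    have h4 : (2 * (n : ℝ) + 1) * ((4 * n + 2 + x + y) / 2 - (2 * n + 1)) - 1 / 2 =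
        ((2 * n + 1) * x - 1 / 2) / 2 + ((2 * n + 1) * y - 1 / 2) / 2 := by ring
    rw [h4]
    -- (2n+1) x is between (2n+1)/(4n-1) and (2n+1)/(4n-2)
    have a1 : (2 * (n : ℝ) + 1) * x - 1 / 2 ≤ 2 * x := by nlinarith
    have a2 : 0 ≤ (2 * (n : ℝ) + 1) * x - 1 / 2 := by nlinarith
    have a3 : (2 * (n : ℝ) + 1) * y - 1 / 2 ≤ 0 := by nlinarith
    have a4 : - (3 * y) ≤ (2 * (n : ℝ) + 1) * y - 1 / 2 := by nlinarith
    have a5 : x * n ≤ 1 / 2 := by nlinarith
    have a6 : y * n ≤ 1 / 4 := by nlinarith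
    have h5 : |((2 * (n : ℝ) + 1) * x - 1 / 2) / 2 + ((2 * n + 1) * y - 1 / 2) / 2| ≤ x + 2 * y := by
      rw [abs_le]
      constructor <;> linarith
    calc |((2 * (n : ℝ) + 1) * x - 1 / 2) / 2 + ((2 * n + 1) * y - 1 / 2) / 2| * n
        ≤ (x + 2 * y) * n := mul_le_mul_of_nonneg_right h5 hn0.le
      _ ≤ 2 := by nlinarith
  · have : x ≤ 1 := by nlinarith
    have : y ≤ 1 := by nlinarith
    linarith

/-- `N ^ 3 ≤ 216 q n` for `N = 2 n + 1` -/
theorem cube_le (n : ℕ) (hn : 1 ≤ n) : ((2 * n + 1 : ℕ) : ℝ) ^ 3 ≤ 216 * q n := by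
  have h1 : ∀ k : ℕ, k ^ 3 ≤ 4 * 2 ^ k := by
    intro k
    rcases Nat.lt_or_ge k 4 with h | h
    · interval_cases k <;> norm_num
    · induction k, h using Nat.le_induction with
      | base => norm_num
      | succ k hk ih =>
        have : (k + 1) ^ 3 ≤ 2 * k ^ 3 := by nlinarith [Nat.mul_le_mul hk hk, mul_pos (by omega : 0 < k) (by omega : 0 < k)]
        calc (k + 1) ^ 3 ≤ 2 * k ^ 3 := this
          _ ≤ 2 * (4 * 2 ^ k) := by omega
          _ = 4 * 2 ^ (k + 1) := by ring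
  obtain ⟨k, rfl⟩ : ∃ k, n = k + 1 := ⟨n - 1, by omega⟩
  have h2 := q_growth k
  have h3 := h1 (k + 1)
  have h4 : (2 * (k + 1) + 1) ^ 3 ≤ 27 * (k + 1) ^ 3 := by
    have : (2 * (k + 1) + 1) ^ 3 ≤ (3 * (k + 1)) ^ 3 := Nat.pow_le_pow_left (by omega) 3
    calc _ ≤ _ := this
      _ = _ := by ring
  have h5 : (2 * (k + 1) + 1) ^ 3 ≤ 216 * q (k + 1) := by
    calc (2 * (k + 1) + 1) ^ 3 ≤ 27 * (k + 1) ^ 3 := h4
      _ ≤ 27 * (4 * 2 ^ (k + 1)) := by omega
      _ = 216 * 2 ^ k := by ring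
      _ ≤ 216 * q (k + 1) := by omega
  exact_mod_cast h5

/-- the index from which the descent works -/
noncomputable def thr (u w : ℕ) (K : ℝ) : ℕ :=
  2 + ⌈(10 : ℝ) ^ 6 * (u ^ 2 * w * (3 * u + K + 1) ^ 2)⌉₊

theorem exp_one_lt : exp 1 < 3 := lt_trans Real.exp_one_lt_d9 (by norm_num)

theorem le_q (n : ℕ) (hn : 1 ≤ n) : n ≤ q n := by
  obtain ⟨k, rfl⟩ : ∃ k, n = k + 1 := ⟨n - 1, by omega⟩
  have h1 := q_growth k
  have h2 : k < 2 ^ k := Nat.lt_two_pow_self
  omega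

/-- one step of the descent -/
theorem step (u w : ℕ) (hu : 1 ≤ u) (hw : 1 ≤ w) (σ : ℝ) (hσ : σ = 1 ∨ σ = -1) (K : ℝ)
    (hK : 0 ≤ K) (n0 : ℕ) (a b : ℤ) (hbq : (q (n0 + thr u w K) : ℤ) ≤ b)
    (hab : |(b : ℝ) * (b * exp 1 - a) - σ * ((u : ℝ) / w) * exp 1| ≤ K / b) :
      ∃ n : ℕ, ∃ t : ℤ, n0 ≤ n ∧ 1 ≤ t ∧ a = t * r n ∧ b = t * q n ∧
        |((u : ℝ) * (2 * n + 1)) * (((u : ℝ) * (2 * n + 1)) * exp 1 - w * t ^ 2) +
          (u : ℝ) ^ 2 / 2 * exp 1| ≤
          (6 * u ^ 3 * exp 1 + 1296 * u ^ 2 * w * K) / ((u : ℝ) * (2 * n + 1)) := by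
  have huR : (1 : ℝ) ≤ u := by exact_mod_cast hu
  have hwR : (1 : ℝ) ≤ w := by exact_mod_cast hw
  have hu0 : (0 : ℝ) < u := by linarith
  have hw0 : (0 : ℝ) < w := by linarith
  have he0 : 0 < exp 1 := exp_pos 1
  have hσabs : |σ| = 1 := by rcases hσ with h | h <;> rw [h] <;> simp
  have hσσ : σ * σ = 1 := by rcases hσ with h | h <;> rw [h] <;> ring
  set ρ : ℝ := (u : ℝ) / w with hρ
  have hρ0 : 0 < ρ := by positivity
  -- the distance of `2 ρ e` from the integers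
  set θ0 : ℝ := σ * ρ * exp 1 with hθ0
  set d : ℝ := |2 * θ0 - round (2 * θ0)| with hd
  have hdlow : 1 ≤ d * (1072 * u ^ 2 * w) := by
    obtain ⟨R, hR⟩ : ∃ R : ℤ, (R : ℝ) = σ * (w * round (2 * θ0)) := by
      rcases hσ with hs | hs
      · exact ⟨w * round (2 * θ0), by rw [hs]; push_cast; ring⟩
      · exact ⟨-(w * round (2 * θ0)), by rw [hs]; push_cast; ring⟩
    obtain ⟨ν, hν1, hν2⟩ := lower (2 * u) (by omega) R
    have e1 : |((2 * u : ℕ) : ℝ) * exp 1 - R| = w * d := by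
      have e2 : (w : ℝ) * (2 * θ0 - round (2 * θ0)) =
          σ * (((2 * u : ℕ) : ℝ) * exp 1 - R) := by
        rw [hR]
        generalize (round (2 * θ0) : ℝ) = y
        rw [hθ0, hρ]
        push_cast
        have e3 : (w : ℝ) * (2 * (σ * (u / w) * exp 1) - y) = 2 * σ * u * exp 1 - w * y := by
          field_simp
        rw [e3]
        linear_combination ((w : ℝ) * y) * hσσ
      have e4 : |(w : ℝ) * (2 * θ0 - round (2 * θ0))| = w * d := by
        rw [abs_mul, abs_of_pos hw0]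
      rw [← e4, e2, abs_mul, hσabs, one_mul]
    rw [e1] at hν2
    push_cast at hν2
    have hν3 : (ν : ℝ) ≤ 16 * u := by
      have h1 : ν < 2 ^ ν := Nat.lt_two_pow_self
      have : ν ≤ 16 * u := by omega
      exact_mod_cast this
    have hν4 : 4 * (ν : ℝ) + 3 ≤ 67 * u := by linarith
    rw [div_le_iff₀ (by positivity)] at hν2
    refine hν2.trans ?_
    have hd00 : 0 ≤ d := abs_nonneg _
    calc (w : ℝ) * d * (8 * (4 * ν + 3) * (2 * u)) = (16 * w * d * u) * (4 * ν + 3) := by ring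
      _ ≤ (16 * w * d * u) * (67 * u) := mul_le_mul_of_nonneg_left hν4 (by positivity)
      _ = _ := by ring
  have hd0 : 0 < d := by
    rcases (abs_nonneg (2 * θ0 - round (2 * θ0))).lt_or_eq with h | h
    · exact h
    · rw [hd, ← h] at hdlow
      linarith
  set C : ℝ := ρ * exp 1 + K + 1 with hC
  have hC1 : 1 ≤ C := by rw [hC]; nlinarith [mul_pos hρ0 he0]
  have hCle : C ≤ 3 * u + K + 1 := by
    have h1 : ρ ≤ u := div_le_self hu0.le hwR
    have h2 : ρ * exp 1 ≤ u * 3 := mul_le_mul h1 exp_one_lt.le he0.le hu0.le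
    rw [hC]
    linarith
  have hinv : ∀ x : ℝ, 0 ≤ x → x / d ≤ x * (1072 * u ^ 2 * w) := by
    intro x hx
    rw [div_le_iff₀ hd0]
    have := mul_le_mul_of_nonneg_left hdlow hx
    linarith
  have hthr : (10 : ℝ) ^ 6 * (u ^ 2 * w * (3 * u + K + 1) ^ 2) ≤ ((thr u w K : ℕ) : ℝ) := by
    have := Nat.le_ceil ((10 : ℝ) ^ 6 * (u ^ 2 * w * (3 * u + K + 1) ^ 2))
    unfold thr
    push_cast
    linarith
  have hthr2 : 2 ≤ thr u w K := by unfold thr; omega
  have hb0 : 0 < b := by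
    have := (q_pos (n0 + thr u w K)).1
    omega
  have hb1 : (1 : ℝ) ≤ b := by exact_mod_cast hb0
  have hbR : (0 : ℝ) < b := by linarith
  have hbthr : ((thr u w K : ℕ) : ℝ) ≤ b := by
    have h1 := le_q (n0 + thr u w K) (by omega)
    have h2 : ((thr u w K : ℕ) : ℤ) ≤ b := by omega
    exact_mod_cast h2
  obtain ⟨n, hn, h1, h2⟩ := index_ge _ b hbq
  have hn2 : 2 ≤ n := by omega
  have hnn0 : n0 ≤ n := by omega
  have hnthr : ((thr u w K : ℕ) : ℝ) ≤ n := by
    have : thr u w K ≤ n := by omega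
    exact_mod_cast this
  have hH1 : 1 ≤ 3 * (u : ℝ) + K + 1 := by linarith
  have hnC : 48 * C ^ 2 / d ≤ n := by
    refine (hinv _ (by positivity)).trans (le_trans ?_ (hthr.trans hnthr))
    have hC2 : C ^ 2 ≤ (3 * u + K + 1) ^ 2 := pow_le_pow_left₀ (by linarith) hCle 2
    calc 48 * C ^ 2 * (1072 * (u : ℝ) ^ 2 * w) = 51456 * (u ^ 2 * w) * C ^ 2 := by ring
      _ ≤ 51456 * (u ^ 2 * w) * (3 * u + K + 1) ^ 2 :=
        mul_le_mul_of_nonneg_left hC2 (by positivity)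
      _ ≤ _ := by
        have : 0 ≤ (u : ℝ) ^ 2 * w * (3 * u + K + 1) ^ 2 := by positivity
        nlinarith
  have hn0R : (0 : ℝ) < n := by
    have : 0 < n := by omega
    exact_mod_cast this
  have hKb : K / b ≤ d / 8 := by
    have h3 : 8 * K / d ≤ b := by
      refine (hinv _ (by positivity)).trans (le_trans ?_ (hthr.trans hbthr))
      have hK2 : K ≤ (3 * u + K + 1) ^ 2 := by nlinarith
      calc 8 * K * (1072 * (u : ℝ) ^ 2 * w) = 8576 * (u ^ 2 * w) * K := by ring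
        _ ≤ 8576 * (u ^ 2 * w) * (3 * u + K + 1) ^ 2 :=
          mul_le_mul_of_nonneg_left hK2 (by positivity)
        _ ≤ _ := by
          have : 0 ≤ (u : ℝ) ^ 2 * w * (3 * u + K + 1) ^ 2 := by positivity
          nlinarith
    rw [div_le_iff₀ hd0] at h3
    rw [div_le_iff₀ hbR]
    linarith
  have hKb' : K / b ≤ K := div_le_self hK hb1
  set θ : ℝ := (b : ℝ) * (b * exp 1 - a) with hθ
  have hθ0abs : |θ0| = ρ * exp 1 := by
    rw [hθ0, abs_mul, abs_mul, hσabs, one_mul, abs_of_pos hρ0, abs_of_pos he0]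
  have hθC : |θ| ≤ C := by
    have : |θ| ≤ |θ - θ0| + |θ0| := by
      have := abs_add_le (θ - θ0) θ0
      rwa [sub_add_cancel] at this
    rw [hθ0abs] at this
    linarith
  rcases near C hC1 n hn2 a b h1 h2 hθC with ⟨t, ha, hbt⟩ | ⟨N, hN⟩
  swap
  · exfalso
    have h3 : 12 * C ^ 2 / n ≤ d / 4 := by
      rw [div_le_iff₀ hn0R]
      rw [div_le_iff₀ hd0] at hnC
      linarith
    have h4 : d ≤ |2 * θ0 - N| := round_le (2 * θ0) N
    have h5 : |2 * θ0 - N| ≤ 2 * |θ - θ0| + |2 * θ - N| := by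
      have h6 : 2 * θ0 - N = -(2 * (θ - θ0)) + (2 * θ - N) := by ring
      rw [h6]
      refine (abs_add_le _ _).trans ?_
      rw [abs_neg, abs_mul, abs_two]
    linarith
  · have hqn : 0 < (q n : ℝ) := by exact_mod_cast (q_pos n).1
    have ht : 1 ≤ t := by
      by_contra hc
      have : t ≤ 0 := by omega
      have h3 : t * (q n : ℤ) ≤ 0 := mul_nonpos_of_nonpos_of_nonneg this (by positivity)
      omega
    refine ⟨n, t, hnn0, ht, ha, hbt, ?_⟩
    obtain ⟨κ, hκ0, hκ1, hκ2, hκ3⟩ := kappa n hn2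
    have hIn := (I_eq n).1
    have htR : (1 : ℝ) ≤ t := by exact_mod_cast ht
    -- `|θ| = t² q I`
    have hθabs : |θ| = (t : ℝ) ^ 2 * (q n * I n) := by
      have h3 : θ = (-1) ^ n * ((t : ℝ) ^ 2 * (q n * I n)) := by
        rw [hθ, ha, hbt, hIn]
        push_cast
        have := sgn_sq n
        linear_combination (-(t : ℝ) ^ 2 * q n * (q n * exp 1 - r n)) * this
      have := I_pos n
      rw [h3, abs_mul, abs_sgn, one_mul, abs_of_pos (by positivity)]
    have ht2 : (t : ℝ) ^ 2 = |θ| * κ := by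
      rw [hθabs]
      linear_combination (-(t : ℝ) ^ 2) * hκ1
    have hdiff : abs (ρ * exp 1 - |θ|) ≤ K / b := by
      rw [← hθ0abs]
      refine (abs_abs_sub_abs_le _ _).trans ?_
      rw [abs_sub_comm]
      exact hab
    have hbn : (q n : ℝ) ≤ b := by exact_mod_cast h1
    have hcube := cube_le n (by omega)
    push_cast at hcube
    have hN0 : (0 : ℝ) < 2 * n + 1 := by linarith
    have hkey : ((u : ℝ) * (2 * n + 1)) * (((u : ℝ) * (2 * n + 1)) * exp 1 - w * t ^ 2) +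
          (u : ℝ) ^ 2 / 2 * exp 1 =
        - (u ^ 2 * exp 1) * ((2 * n + 1) * (κ - (2 * n + 1)) - 1 / 2) +
          u * w * ((2 * n + 1) * κ) * (ρ * exp 1 - |θ|) := by
      rw [ht2, hρ]
      field_simp
      ring
    rw [hkey]
    have b1 : |-((u : ℝ) ^ 2 * exp 1) * ((2 * n + 1) * (κ - (2 * n + 1)) - 1 / 2)| ≤
        (u : ℝ) ^ 2 * exp 1 * (2 / n) := by
      rw [abs_mul, abs_neg, abs_of_pos (by positivity : (0:ℝ) < (u : ℝ) ^ 2 * exp 1)]
      exact mul_le_mul_of_nonneg_left hκ2 (by positivity)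
    have b2 : abs ((u : ℝ) * w * ((2 * n + 1) * κ) * (ρ * exp 1 - |θ|)) ≤
        u * w * ((2 * n + 1) * κ) * (K / b) := by
      rw [abs_mul, abs_of_pos (by positivity : (0:ℝ) < (u : ℝ) * w * ((2 * n + 1) * κ))]
      exact mul_le_mul_of_nonneg_left hdiff (by positivity)
    refine (abs_add_le _ _).trans ((add_le_add b1 b2).trans ?_)
    rw [le_div_iff₀ (by positivity), add_mul]
    have hnN : (2 * (n : ℝ) + 1) ≤ 3 * n := by
      have : (1 : ℝ) ≤ n := by
        have : 1 ≤ n := by omega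
        exact_mod_cast this
      linarith
    have c1 : (u : ℝ) ^ 2 * exp 1 * (2 / n) * (u * (2 * n + 1)) ≤ 6 * u ^ 3 * exp 1 := by
      have : (2 / (n : ℝ)) * (2 * n + 1) ≤ 6 := by
        rw [div_mul_eq_mul_div, div_le_iff₀ hn0R]
        linarith
      calc (u : ℝ) ^ 2 * exp 1 * (2 / n) * (u * (2 * n + 1)) =
          (u ^ 3 * exp 1) * ((2 / n) * (2 * n + 1)) := by ring
        _ ≤ (u ^ 3 * exp 1) * 6 := mul_le_mul_of_nonneg_left this (by positivity)
        _ = _ := by ring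
    have c2 : (u : ℝ) * w * ((2 * n + 1) * κ) * (K / b) * (u * (2 * n + 1)) ≤
        1296 * u ^ 2 * w * K := by
      have h7 : κ ≤ 2 * (2 * n + 1) := by linarith
      have h8 : (2 * (n : ℝ) + 1) ^ 2 * κ ≤ 432 * q n := by
        have : (2 * (n : ℝ) + 1) ^ 2 * κ ≤ (2 * (n : ℝ) + 1) ^ 2 * (2 * (2 * n + 1)) :=
          mul_le_mul_of_nonneg_left h7 (by positivity)
        nlinarith
      have h9 : (2 * (n : ℝ) + 1) ^ 2 * κ / b ≤ 432 := by
        rw [div_le_iff₀ hbR]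
        nlinarith
      calc (u : ℝ) * w * ((2 * n + 1) * κ) * (K / b) * (u * (2 * n + 1)) =
          (u ^ 2 * w * K) * ((2 * n + 1) ^ 2 * κ / b) := by ring
        _ ≤ (u ^ 2 * w * K) * 432 := mul_le_mul_of_nonneg_left h9 (by positivity)
        _ ≤ 1296 * u ^ 2 * w * K := by
          have : 0 ≤ (u : ℝ) ^ 2 * w * K := by positivity
          linarith
    exact add_le_add c1 c2

end Pool.Agent.J4H85.EE
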