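import Mathlib
import Pool.Agent.J4H85.EE.Descent

set_option autoImplicit false

/-!
# No integers `a, b` with `b (b e - a)` within `K / b` of a rational multiple of `e`
-/

namespace Pool.Agent.J4H85.EE

open Real Pool.Agent.H43R2.Cplx.EMeas Pool.Agent.H364R2.EE

theorem val_odd (x : ℕ) (hx : x % 2 = 1) : padicValNat 2 x = 0 :=
  padicValNat.eq_zero_of_not_dvd (by omega)

/-- the contradiction between the exponents of `2` -/
theorem parity_contra (u n1 n2 q1 q2 r2 T T' : ℕ) (hu : u ≠ 0) (hT : T ≠ 0) (hT' : T' ≠ 0)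
    (hq1 : q1 % 2 = 1) (hq2 : q2 % 2 = 1) (hr2 : r2 % 2 = 1)
    (h1 : u * (2 * n1 + 1) = T * q1) (h2 : u ^ 2 * (2 * n2 + 1) = T' * q2)
    (h3 : 2 * T ^ 2 = T' * r2) : False := by
  have : Fact (Nat.Prime 2) := ⟨Nat.prime_two⟩
  have e1 := congrArg (padicValNat 2) h1
  have e2 := congrArg (padicValNat 2) h2
  have e3 := congrArg (padicValNat 2) h3
  rw [padicValNat.mul hu (by omega), padicValNat.mul hT (by omega), val_odd (2 * n1 + 1) (by omega),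
    val_odd q1 hq1] at e1
  rw [padicValNat.mul (pow_ne_zero _ hu) (by omega), padicValNat.mul hT' (by omega),
    val_odd (2 * n2 + 1) (by omega), val_odd q2 hq2, padicValNat.pow] at e2
  rw [padicValNat.mul (by norm_num) (pow_ne_zero _ hT), padicValNat.mul hT' (by omega),
    val_odd r2 hr2, padicValNat.pow, padicValNat.self (by norm_num)] at e3
  omega

/-- the error constants of the second and of the third pair -/
noncomputable def K1 (u w : ℕ) (K : ℝ) : ℝ := 6 * u ^ 3 * exp 1 + 1296 * u ^ 2 * w * K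

noncomputable def K2 (u w : ℕ) (K : ℝ) : ℝ :=
  6 * ((u ^ 2 : ℕ) : ℝ) ^ 3 * exp 1 + 1296 * ((u ^ 2 : ℕ) : ℝ) ^ 2 * ((2 : ℕ) : ℝ) * K1 u w K

/-- the threshold -/
noncomputable def BB (u w : ℕ) (K : ℝ) : ℕ :=
  q (q (q (thr ((u ^ 2) ^ 2) 2 (K2 u w K)) + thr (u ^ 2) 2 (K1 u w K)) + thr u w K)

/-- the descent -/
theorem no_close (u w : ℕ) (hu : 1 ≤ u) (hw : 1 ≤ w) (σ : ℝ) (hσ : σ = 1 ∨ σ = -1) (K : ℝ)
    (hK : 0 ≤ K) (a b : ℤ) (hb : (BB u w K : ℤ) ≤ b) :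
      ¬ |(b : ℝ) * (b * exp 1 - a) - σ * ((u : ℝ) / w) * exp 1| ≤ K / b := by
  intro hab
  have he0 : 0 < exp 1 := exp_pos 1
  have hK10 : 0 ≤ K1 u w K := by unfold K1; positivity
  have hK20 : 0 ≤ K2 u w K := by unfold K2; positivity
  have hu2 : 1 ≤ u ^ 2 := Nat.one_le_pow _ _ hu
  have hu4 : 1 ≤ (u ^ 2) ^ 2 := Nat.one_le_pow _ _ hu2
  set B3 : ℕ := q (thr ((u ^ 2) ^ 2) 2 (K2 u w K)) with hB3
  set B2 : ℕ := q (B3 + thr (u ^ 2) 2 (K1 u w K)) with hB2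
  obtain ⟨n, t, hn, ht, ha, hbt, h1⟩ := step u w hu hw σ hσ K hK B2 a b hb hab
  -- second pair
  have hb2 : (B2 : ℤ) ≤ (u : ℤ) * (2 * n + 1) := by
    have h2 : (B2 : ℤ) ≤ n := by exact_mod_cast hn
    have h3 : (1 : ℤ) ≤ u := by exact_mod_cast hu
    have h4 : (0 : ℤ) ≤ n := by positivity
    nlinarith
  obtain ⟨n', T, hn', hT, ha2, hb2', h2⟩ := step (u ^ 2) 2 hu2 (by norm_num) (-1) (Or.inr rfl)
    (K1 u w K) hK10 B3 (w * t ^ 2) (u * (2 * n + 1)) hb2 (by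
    unfold K1
    push_cast
    refine le_trans (le_of_eq ?_) h1
    congr 1
    ring)
  have hb3 : (B3 : ℤ) ≤ (u : ℤ) ^ 2 * (2 * n' + 1) := by
    have h2 : (B3 : ℤ) ≤ n' := by exact_mod_cast hn'
    have h3 : (1 : ℤ) ≤ (u : ℤ) ^ 2 := by exact_mod_cast hu2
    have h4 : (0 : ℤ) ≤ n' := by positivity
    nlinarith
  obtain ⟨n'', T', hn'', hT', ha3, hb3', -⟩ := step ((u ^ 2) ^ 2) 2 hu4 (by norm_num) (-1)
    (Or.inr rfl) (K2 u w K) hK20 0 (2 * T ^ 2) (u ^ 2 * (2 * n' + 1))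
    (by rw [Nat.zero_add]; exact hb3) (by
    unfold K2
    push_cast at h2 ⊢
    refine le_trans (le_of_eq ?_) h2
    congr 1
    ring)
  obtain ⟨T, rfl⟩ : ∃ T0 : ℕ, T = T0 := ⟨T.toNat, by omega⟩
  obtain ⟨T', rfl⟩ : ∃ T0 : ℕ, T' = T0 := ⟨T'.toNat, by omega⟩
  exact parity_contra u n n' (q n') (q n'') (r n'') T T' (by omega) (by omega) (by omega)
    (q_odd n').1 (q_odd n'').1 (r_odd n'').1 (by exact_mod_cast hb2') (by exact_mod_cast hb3')
    (by exact_mod_cast ha3)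

/-- the case `ρ = 0` -/
theorem no_close_zero (K : ℝ) (hK : 0 ≤ K) (a b : ℤ) (hb : (152 * K) ^ 2 + 1 < b) :
      ¬ |(b : ℝ) * (b * exp 1 - a)| ≤ K / b := by
  intro hab
  have hb0 : 0 < b := by
    have : (0 : ℝ) < b := by nlinarith [sq_nonneg (152 * K)]
    exact_mod_cast this
  have hb1 : (1 : ℝ) ≤ b := by exact_mod_cast hb0
  have hbR : (0 : ℝ) < b := by linarith
  obtain ⟨Q, rfl⟩ : ∃ Q : ℕ, b = Q := ⟨b.toNat, by omega⟩
  obtain ⟨n, hn1, hn2⟩ := lower Q (by omega) a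
  push_cast at hab hb1 hbR hb
  have hbK : (152 * K) ^ 2 < Q := by linarith
  set s : ℝ := √(Q : ℝ) with hs
  have hss : s ^ 2 = Q := Real.sq_sqrt hbR.le
  have hs1 : 1 ≤ s := by rw [hs]; exact Real.one_le_sqrt.2 hb1
  have hn3 : n ^ 2 ≤ 2 * 2 ^ n := by
    rcases Nat.lt_or_ge n 4 with h | h
    · interval_cases n <;> norm_num
    · clear hn1 hn2
      induction n, h using Nat.le_induction with
      | base => norm_num
      | succ k hk ih =>
        have h3 : (k + 1) ^ 2 ≤ 2 * k ^ 2 := by nlinarith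
        calc (k + 1) ^ 2 ≤ 2 * k ^ 2 := h3
          _ ≤ 2 * (2 * 2 ^ k) := by omega
          _ = 2 * 2 ^ (k + 1) := by ring
  have hn4 : (n : ℝ) ^ 2 ≤ 16 * Q := by
    have : n ^ 2 ≤ 16 * Q := by omega
    exact_mod_cast this
  have hn5 : (n : ℝ) ≤ 4 * s := by
    refine le_of_sq_le_sq ?_ (by positivity)
    nlinarith
  have h1 : 1 / (8 * (4 * (n : ℝ) + 3)) ≤ K / Q := by
    rw [abs_mul, abs_of_pos hbR] at hab
    refine le_trans ?_ hab
    calc 1 / (8 * (4 * (n : ℝ) + 3)) = Q * (1 / (8 * (4 * n + 3) * Q : ℝ)) := by field_simp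
      _ ≤ _ := mul_le_mul_of_nonneg_left hn2 hbR.le
  rw [div_le_div_iff₀ (by positivity) hbR] at h1
  have h2 : K * (8 * (4 * n + 3)) ≤ K * (152 * s) := by
    apply mul_le_mul_of_nonneg_left _ hK
    linarith
  have h3 : s ^ 2 ≤ 152 * K * s := by linarith
  have h4 : s ≤ 152 * K := by nlinarith
  have h5 : s ^ 2 ≤ (152 * K) ^ 2 := by nlinarith
  linarith

end Pool.Agent.J4H85.EE
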