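import Mathlib
import Pool.Agent.J4H85.EE.Main

set_option autoImplicit false

/-!
# The threshold is at most triply exponential
-/

namespace Pool.Agent.J4H85.EE

open Real Pool.Agent.H43R2.Cplx.EMeas Pool.Agent.H364R2.EE

theorem q_le : ∀ n : ℕ, (q n : ℝ) ≤ exp (4 * (n : ℝ) ^ 2) ∧
    (q (n + 1) : ℝ) ≤ exp (4 * ((n + 1 : ℕ) : ℝ) ^ 2) := by
  intro n
  induction n with
  | zero =>
    constructor
    · simp [q]
    · simp only [q]
      push_cast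
      exact Real.one_le_exp (by norm_num)
  | succ n ih =>
    refine ⟨ih.2, ?_⟩
    have h1 : (q (n + 1 + 1) : ℝ) = (4 * (n : ℝ) + 6) * q (n + 1) + q n := by
      rw [show n + 1 + 1 = n + 2 by ring]
      simp only [q]
      push_cast
      ring
    have h2 : (q n : ℝ) ≤ q (n + 1) := by exact_mod_cast q_mono (by omega)
    have h3 : (4 * (n : ℝ) + 7) ≤ exp (4 * n + 6) := by
      have := Real.add_one_le_exp (4 * (n : ℝ) + 6)
      linarith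
    have hq0 : (0 : ℝ) < q (n + 1) := by exact_mod_cast (q_pos n).2
    calc (q (n + 1 + 1) : ℝ) ≤ (4 * (n : ℝ) + 7) * q (n + 1) := by rw [h1]; linarith
      _ ≤ exp (4 * n + 6) * exp (4 * ((n + 1 : ℕ) : ℝ) ^ 2) :=
        mul_le_mul h3 ih.2 hq0.le (exp_pos _).le
      _ = exp (4 * n + 6 + 4 * ((n + 1 : ℕ) : ℝ) ^ 2) := by rw [← exp_add]
      _ ≤ _ := by
        apply Real.exp_le_exp.2
        push_cast
        have : (0 : ℝ) ≤ n := by positivity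
        nlinarith

/-- adding to an iterated exponential -/
theorem add_le_exp {x t : ℝ} (hx : 0 ≤ x) (ht : 0 ≤ t) : exp x + t ≤ exp (x + t) := by
  rw [exp_add]
  have h1 := Real.add_one_le_exp t
  have h2 : 1 ≤ exp x := Real.one_le_exp hx
  nlinarith [exp_pos t]

theorem four_sq {x : ℝ} (hx : 0 ≤ x) : 4 * (exp x) ^ 2 ≤ exp (2 * x + 2) := by
  rw [exp_add, show 2 * x = x + x by ring, exp_add]
  have h : (4 : ℝ) ≤ exp 2 := by
    have h1 : (2.7 : ℝ) < exp 1 := lt_trans (by norm_num) Real.exp_one_gt_d9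
    have h2 : exp 2 = exp 1 * exp 1 := by rw [← exp_add]; norm_num
    nlinarith
  have : 0 < exp x * exp x := by positivity
  nlinarith

/-- the three levels -/
theorem levels (t1 t2 t3 : ℕ) :
    (q (q (q t3 + t2) + t1) : ℝ) ≤
      exp (exp (exp (8 * (t3 : ℝ) ^ 2 + 2 * t2 + t1 + 4))) := by
  have a3 : (q t3 : ℝ) ≤ exp (4 * (t3 : ℝ) ^ 2) := (q_le t3).1
  have b3 : ((q t3 + t2 : ℕ) : ℝ) ≤ exp (4 * (t3 : ℝ) ^ 2 + t2) := by
    push_cast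
    exact (add_le_add a3 le_rfl).trans (add_le_exp (by positivity) (by positivity))
  have a2 : (q (q t3 + t2) : ℝ) ≤ exp (exp (8 * (t3 : ℝ) ^ 2 + 2 * t2 + 2)) := by
    refine ((q_le _).1).trans (Real.exp_le_exp.2 ?_)
    have h1 : ((q t3 + t2 : ℕ) : ℝ) ^ 2 ≤ (exp (4 * (t3 : ℝ) ^ 2 + t2)) ^ 2 :=
      pow_le_pow_left₀ (by positivity) b3 2
    calc 4 * ((q t3 + t2 : ℕ) : ℝ) ^ 2 ≤ 4 * (exp (4 * (t3 : ℝ) ^ 2 + t2)) ^ 2 := by linarith
      _ ≤ exp (2 * (4 * (t3 : ℝ) ^ 2 + t2) + 2) := four_sq (by positivity)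
      _ = _ := by congr 1; ring
  set y : ℝ := 8 * (t3 : ℝ) ^ 2 + 2 * t2 + 2 with hy
  have hy0 : 0 ≤ y := by positivity
  have b2 : ((q (q t3 + t2) + t1 : ℕ) : ℝ) ≤ exp (exp (y + t1)) := by
    push_cast
    refine (add_le_add a2 le_rfl).trans ((add_le_exp (exp_pos _).le (by positivity)).trans ?_)
    exact Real.exp_le_exp.2 (add_le_exp hy0 (by positivity))
  refine ((q_le _).1).trans (Real.exp_le_exp.2 ?_)
  have h1 : ((q (q t3 + t2) + t1 : ℕ) : ℝ) ^ 2 ≤ (exp (exp (y + t1))) ^ 2 :=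
    pow_le_pow_left₀ (by positivity) b2 2
  calc 4 * ((q (q t3 + t2) + t1 : ℕ) : ℝ) ^ 2 ≤ 4 * (exp (exp (y + t1))) ^ 2 := by linarith
    _ ≤ exp (2 * exp (y + t1) + 2) := four_sq (exp_pos _).le
    _ ≤ exp (exp (y + t1 + 2)) := by
      apply Real.exp_le_exp.2
      rw [exp_add (y + t1) 2]
      have h : (4 : ℝ) ≤ exp 2 := by
        have h1 : (2.7 : ℝ) < exp 1 := lt_trans (by norm_num) Real.exp_one_gt_d9
        have h2 : exp 2 = exp 1 * exp 1 := by rw [← exp_add]; norm_num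
        nlinarith
      have h3 : 1 ≤ exp (y + t1) := Real.one_le_exp (by positivity)
      nlinarith
    _ = _ := by rw [hy]; congr 2; ring

theorem thr_le (u w : ℕ) (K : ℝ) (hK : 0 ≤ K) :
    ((thr u w K : ℕ) : ℝ) ≤ 3 + 10 ^ 6 * (u ^ 2 * w * (3 * u + K + 1) ^ 2) := by
  unfold thr
  have := (Nat.ceil_lt_add_one
    (by positivity : 0 ≤ (10 : ℝ) ^ 6 * (u ^ 2 * w * (3 * u + K + 1) ^ 2))).le
  push_cast
  linarith

theorem BB_le (u w : ℕ) (K H : ℝ) (hK : 0 ≤ K) (hH : 1 ≤ H) (hu : (u : ℝ) ≤ H) (hw : (w : ℝ) ≤ H)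
    (hKH : K ≤ H) : (BB u w K : ℝ) ≤ exp (exp (exp (10 ^ 42 * H ^ 48))) := by
  have he := exp_one_lt.le
  have he0 := exp_pos 1
  have hH0 : 0 ≤ H := by linarith
  have hp : ∀ i j : ℕ, i ≤ j → H ^ i ≤ H ^ j := fun i j h => pow_le_pow_right₀ hH h
  have hu0 : (0 : ℝ) ≤ u := by positivity
  have hw0 : (0 : ℝ) ≤ w := by positivity
  have u2 : (u : ℝ) ^ 2 ≤ H ^ 2 := pow_le_pow_left₀ hu0 hu 2
  have u3 : (u : ℝ) ^ 3 ≤ H ^ 3 := pow_le_pow_left₀ hu0 hu 3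
  have u4 : (u : ℝ) ^ 4 ≤ H ^ 4 := pow_le_pow_left₀ hu0 hu 4
  have u6 : (u : ℝ) ^ 6 ≤ H ^ 6 := pow_le_pow_left₀ hu0 hu 6
  have u8 : (u : ℝ) ^ 8 ≤ H ^ 8 := pow_le_pow_left₀ hu0 hu 8
  have hK1 : K1 u w K ≤ 2000 * H ^ 4 := by
    unfold K1
    have a1 : (u : ℝ) ^ 3 * exp 1 ≤ H ^ 3 * 3 := mul_le_mul u3 he he0.le (by positivity)
    have a2 : (u : ℝ) ^ 2 * w * K ≤ H ^ 2 * H * H :=
      mul_le_mul (mul_le_mul u2 hw hw0 (by positivity)) hKH hK (by positivity)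
    have a3 := hp 3 4 (by norm_num)
    have e1 : H ^ 2 * H * H = H ^ 4 := by ring
    rw [e1] at a2
    have : 0 ≤ H ^ 4 := by positivity
    linarith
  have hK10 : 0 ≤ K1 u w K := by unfold K1; positivity
  have hK2 : K2 u w K ≤ 6 * 10 ^ 6 * H ^ 8 := by
    unfold K2
    push_cast
    have a1 : (u : ℝ) ^ 6 * exp 1 ≤ H ^ 6 * 3 := mul_le_mul u6 he he0.le (by positivity)
    have a2 : (u : ℝ) ^ 4 * K1 u w K ≤ H ^ 4 * (2000 * H ^ 4) :=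
      mul_le_mul u4 hK1 hK10 (by positivity)
    have a3 := hp 6 8 (by norm_num)
    have e1 : H ^ 4 * (2000 * H ^ 4) = 2000 * H ^ 8 := by ring
    rw [e1] at a2
    have e2 : 6 * ((u : ℝ) ^ 2) ^ 3 * exp 1 + 1296 * ((u : ℝ) ^ 2) ^ 2 * 2 * K1 u w K =
      6 * (u ^ 6 * exp 1) + 2592 * (u ^ 4 * K1 u w K) := by ring
    rw [e2]
    have : 0 ≤ H ^ 8 := by positivity
    linarith
  have hK20 : 0 ≤ K2 u w K := by unfold K2; positivity
  have t1 : ((thr u w K : ℕ) : ℝ) ≤ 3 * 10 ^ 7 * H ^ 5 := by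
    refine (thr_le u w K hK).trans ?_
    have a1 : 3 * (u : ℝ) + K + 1 ≤ 5 * H := by linarith
    have a2 : (3 * (u : ℝ) + K + 1) ^ 2 ≤ (5 * H) ^ 2 := pow_le_pow_left₀ (by positivity) a1 2
    have a3 : (u : ℝ) ^ 2 * w * (3 * u + K + 1) ^ 2 ≤ H ^ 2 * H * (5 * H) ^ 2 :=
      mul_le_mul (mul_le_mul u2 hw hw0 (by positivity)) a2 (by positivity) (by positivity)
    have e1 : H ^ 2 * H * (5 * H) ^ 2 = 25 * H ^ 5 := by ring
    rw [e1] at a3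
    have : 1 ≤ H ^ 5 := one_le_pow₀ hH
    linarith
  have t2 : ((thr (u ^ 2) 2 (K1 u w K) : ℕ) : ℝ) ≤ 10 ^ 14 * H ^ 12 := by
    refine (thr_le _ _ _ hK10).trans ?_
    push_cast
    have h1 : 1 ≤ H ^ 4 := one_le_pow₀ hH
    have h2 := hp 2 4 (by norm_num)
    have a1 : 3 * (u : ℝ) ^ 2 + K1 u w K + 1 ≤ 2004 * H ^ 4 := by linarith
    have a2 : (3 * (u : ℝ) ^ 2 + K1 u w K + 1) ^ 2 ≤ (2004 * H ^ 4) ^ 2 :=
      pow_le_pow_left₀ (by positivity) a1 2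
    have a3 : (u : ℝ) ^ 4 * (3 * u ^ 2 + K1 u w K + 1) ^ 2 ≤ H ^ 4 * (2004 * H ^ 4) ^ 2 :=
      mul_le_mul u4 a2 (by positivity) (by positivity)
    have e1 : H ^ 4 * (2004 * H ^ 4) ^ 2 = 4016016 * H ^ 12 := by ring
    rw [e1] at a3
    have : 1 ≤ H ^ 12 := one_le_pow₀ hH
    have e2 : (10 : ℝ) ^ 6 * (((u : ℝ) ^ 2) ^ 2 * 2 * (3 * u ^ 2 + K1 u w K + 1) ^ 2) =
      2 * 10 ^ 6 * ((u : ℝ) ^ 4 * (3 * u ^ 2 + K1 u w K + 1) ^ 2) := by ring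
    rw [e2]
    linarith
  have t3 : ((thr ((u ^ 2) ^ 2) 2 (K2 u w K) : ℕ) : ℝ) ≤ 10 ^ 20 * H ^ 24 := by
    refine (thr_le _ _ _ hK20).trans ?_
    push_cast
    have h1 : 1 ≤ H ^ 8 := one_le_pow₀ hH
    have h2 := hp 4 8 (by norm_num)
    have a1 : 3 * ((u : ℝ) ^ 2) ^ 2 + K2 u w K + 1 ≤ 6000004 * H ^ 8 := by
      have : ((u : ℝ) ^ 2) ^ 2 = u ^ 4 := by ring
      rw [this]
      linarith
    have a2 : (3 * ((u : ℝ) ^ 2) ^ 2 + K2 u w K + 1) ^ 2 ≤ (6000004 * H ^ 8) ^ 2 :=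
      pow_le_pow_left₀ (by positivity) a1 2
    have a3 : (u : ℝ) ^ 8 * (3 * ((u : ℝ) ^ 2) ^ 2 + K2 u w K + 1) ^ 2 ≤
        H ^ 8 * (6000004 * H ^ 8) ^ 2 :=
      mul_le_mul u8 a2 (by positivity) (by positivity)
    have e1 : H ^ 8 * (6000004 * H ^ 8) ^ 2 = 36000048000016 * H ^ 24 := by ring
    rw [e1] at a3
    have : 1 ≤ H ^ 24 := one_le_pow₀ hH
    have e2 : (10 : ℝ) ^ 6 * ((((u : ℝ) ^ 2) ^ 2) ^ 2 * 2 *
        (3 * ((u : ℝ) ^ 2) ^ 2 + K2 u w K + 1) ^ 2) =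
      2 * 10 ^ 6 * ((u : ℝ) ^ 8 * (3 * ((u : ℝ) ^ 2) ^ 2 + K2 u w K + 1) ^ 2) := by ring
    rw [e2]
    linarith
  unfold BB
  refine (levels _ _ _).trans ?_
  apply Real.exp_le_exp.2
  apply Real.exp_le_exp.2
  apply Real.exp_le_exp.2
  have s3 : ((thr ((u ^ 2) ^ 2) 2 (K2 u w K) : ℕ) : ℝ) ^ 2 ≤ (10 ^ 20 * H ^ 24) ^ 2 :=
    pow_le_pow_left₀ (by positivity) t3 2
  have e1 : (10 ^ 20 * H ^ 24) ^ 2 = 10 ^ 40 * H ^ 48 := by ring
  rw [e1] at s3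
  have h1 := hp 5 48 (by norm_num)
  have h2 := hp 12 48 (by norm_num)
  have h3 : 1 ≤ H ^ 48 := one_le_pow₀ hH
  linarith

/-- For every integer `R`: `b (b e - a)` is not within `K / b` of `R e` if the integer `b` is larger
than a triple exponential of a polynomial in `|R|` and `K`. -/
theorem no_close_int (R : ℤ) (K H : ℝ) (hK : 0 ≤ K) (hH : 1 ≤ H) (hR : |(R : ℝ)| ≤ H)
    (hKH : K ≤ H) (a b : ℤ) (hb : exp (exp (exp (10 ^ 42 * H ^ 48))) ≤ b) :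
    ¬ |(b : ℝ) * (b * exp 1 - a) - R * exp 1| ≤ K / b := by
  intro hab
  have hnat : ((R.natAbs : ℕ) : ℝ) = |(R : ℝ)| := by
    rw [Nat.cast_natAbs]
    push_cast
    rfl
  have hBB : ∀ h : R ≠ 0, (BB R.natAbs 1 K : ℤ) ≤ b := by
    intro h
    have h1 := BB_le R.natAbs 1 K H hK hH (by rw [hnat]; exact hR) (by simpa using hH) hKH
    have h2 := h1.trans hb
    exact_mod_cast h2
  rcases lt_trichotomy R 0 with h | h | h
  · refine no_close R.natAbs 1 (by omega) le_rfl (-1) (Or.inr rfl) K hK a b (hBB (by omega)) ?_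
    have h1 : |(R : ℝ)| = -(R : ℝ) := abs_of_neg (by exact_mod_cast h)
    rw [hnat, h1]
    refine le_trans (le_of_eq ?_) hab
    congr 1
    push_cast
    ring
  · subst h
    refine no_close_zero K hK a b ?_ (by simpa using hab)
    have h1 : (152 * K) ^ 2 ≤ (152 * H) ^ 2 := pow_le_pow_left₀ (by positivity) (by linarith) 2
    have h2 : ∀ y : ℝ, y ≤ exp y := fun y => by linarith [Real.add_one_le_exp y]
    have h3 : 10 ^ 42 * H ^ 48 ≤ b := ((h2 _).trans ((h2 _).trans (h2 _))).trans hb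
    have h4 : H ^ 2 ≤ H ^ 48 := pow_le_pow_right₀ hH (by norm_num)
    have h5 : 1 ≤ H ^ 48 := one_le_pow₀ hH
    nlinarith
  · refine no_close R.natAbs 1 (by omega) le_rfl 1 (Or.inl rfl) K hK a b (hBB (by omega)) ?_
    have h1 : |(R : ℝ)| = (R : ℝ) := abs_of_pos (by exact_mod_cast h)
    rw [hnat, h1]
    refine le_trans (le_of_eq ?_) hab
    congr 1
    push_cast
    ring

end Pool.Agent.J4H85.EE
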