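import Mathlib
import Pool.Agent.J4H85.EE.Bound

set_option autoImplicit false

/-!
# If `j e` is an integral multiple of `g (k / c)` then `c` is not large

Here `g x = A₁ x + A₂ x ^ 2 + A₃ x ^ 3 + O (x ^ 4)` with rational `A₁ ≠ 0`, `A₂`, `A₃`.
-/

namespace Pool.Agent.J4H85.EE

open Real Filter Topology Asymptotics

/-- the estimate, `α₁ > 0` -/
theorem estimate (α₁ α₂ α₃ L j k c m e M X G V D : ℝ) (hL : 1 ≤ L) (hα : 1 ≤ α₁) (hM : 0 ≤ M)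
    (he : 0 < e) (hc : 0 < c) (hX : k = c * X) (hX0 : X ≠ 0) (hX1 : |X| ≤ 1)
    (hG : |L * G - (α₁ + α₂ * X + α₃ * X ^ 2)| ≤ L * M * |X| ^ 3)
    (hS : (|α₂| + |α₃| + L * M) * |X| ≤ 1 / 2)
    (hm : j * e = m * (X * G)) (hV : V = α₁ - α₂ * X) (hD : D = α₁ * α₃ - α₂ ^ 2) :
    |(j * L * (c * V)) * ((j * L * (c * V)) * e - m * α₁ ^ 2 * k) - (j * k * L) ^ 2 * D * e| ≤
      (j * k * L) ^ 2 * e * (2 * (2 * (|α₂| + |α₃| + L * M) * |D| +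
        (|α₁| + |α₂|) * (|α₂ * α₃| + L * (|α₁| + |α₂|) * M))) * |X| := by
  set S : ℝ := |α₂| + |α₃| + L * M with hSd
  set V0 : ℝ := |α₁| + |α₂| with hV0
  set W : ℝ := |α₂ * α₃| + L * V0 * M with hW
  set R : ℝ := L * G - (α₁ + α₂ * X + α₃ * X ^ 2) with hR
  have hXp : 0 < |X| := abs_pos.2 hX0
  have hX2 : |X| ^ 2 ≤ |X| := by nlinarith
  have hX3 : |X| ^ 3 ≤ |X| := by nlinarith
  have hS0 : 0 ≤ S := by positivity
  have hV00 : 0 ≤ V0 := by positivity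
  have hLM : 0 ≤ L * M := by positivity
  -- `L G` is near `α₁`
  have h1 : |L * G - α₁| ≤ S * |X| := by
    have e1 : L * G - α₁ = α₂ * X + α₃ * X ^ 2 + R := by rw [hR]; ring
    rw [e1]
    refine (abs_add_le _ _).trans ((add_le_add (abs_add_le _ _) hG).trans ?_)
    rw [abs_mul, abs_mul, abs_pow]
    have a1 : |α₃| * |X| ^ 2 ≤ |α₃| * |X| := mul_le_mul_of_nonneg_left hX2 (abs_nonneg _)
    have a2 : L * M * |X| ^ 3 ≤ L * M * |X| := mul_le_mul_of_nonneg_left hX3 hLM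
    rw [hSd]
    linarith
  have hLG : 1 / 2 ≤ L * G := by
    have := (abs_le.1 h1).1
    linarith
  have hLG0 : 0 < L * G := by linarith
  -- `V - L G`
  have h2 : |V - L * G| ≤ 2 * S * |X| := by
    have e1 : V - L * G = -(α₂ * X) + -(L * G - α₁) := by rw [hV]; ring
    rw [e1]
    refine (abs_add_le _ _).trans ?_
    rw [abs_neg, abs_neg, abs_mul]
    have : |α₂| * |X| ≤ S * |X| := by
      apply mul_le_mul_of_nonneg_right _ hXp.le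
      rw [hSd]
      linarith [abs_nonneg α₃]
    linarith
  have hVabs : |V| ≤ V0 := by
    rw [hV, hV0]
    refine (abs_sub _ _).trans ?_
    rw [abs_mul]
    have : |α₂| * |X| ≤ |α₂| := by nlinarith [abs_nonneg α₂]
    linarith
  -- the second order term
  set E : ℝ := -(α₂ * α₃ * X) + V * R / X ^ 2 with hE
  have hE1 : |E| ≤ W * |X| := by
    rw [hE]
    refine (abs_add_le _ _).trans ?_
    rw [abs_neg, abs_mul, abs_div, abs_mul V, abs_pow]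
    have a1 : |V| * |R| / |X| ^ 2 ≤ L * V0 * M * |X| := by
      rw [div_le_iff₀ (by positivity)]
      calc |V| * |R| ≤ V0 * (L * M * |X| ^ 3) := mul_le_mul hVabs hG (abs_nonneg _) hV00
        _ = _ := by ring
    rw [hW]
    linarith
  have hkey : L * G * V - α₁ ^ 2 = X ^ 2 * (D + E) := by
    rw [hE, hD, hR, hV]
    field_simp
    ring
  have hGe : G ≠ 0 := by
    rintro rfl
    rw [mul_zero] at hLG0
    exact lt_irrefl _ hLG0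
  set θ : ℝ := (j * L * (c * V)) * ((j * L * (c * V)) * e - m * α₁ ^ 2 * k) with hθ
  have hθG : (θ - (j * k * L) ^ 2 * D * e) * (L * G) =
      (j * k * L) ^ 2 * e * ((V - L * G) * D + V * E) := by
    have e1 : θ * (L * G) = (j * k * L) ^ 2 * e * (V * (D + E)) := by
      have e2 : X ^ 2 * (θ * (L * G)) = X ^ 2 * ((j * k * L) ^ 2 * e * (V * (D + E))) := by
        have e3 : X ^ 2 * ((j * k * L) ^ 2 * e * (V * (D + E))) =
          (j * k * L) ^ 2 * e * V * (X ^ 2 * (D + E)) := by ring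
        rw [e3, ← hkey, hθ, hX]
        linear_combination (L ^ 2 * j * c ^ 2 * V * α₁ ^ 2 * X ^ 2) * hm
      exact mul_left_cancel₀ (pow_ne_zero 2 hX0) e2
    rw [sub_mul, e1]
    ring
  have h3 : |(V - L * G) * D + V * E| ≤ (2 * S * |D| + V0 * W) * |X| := by
    refine (abs_add_le _ _).trans ?_
    rw [abs_mul, abs_mul]
    have a1 : |V - L * G| * |D| ≤ 2 * S * |X| * |D| := mul_le_mul_of_nonneg_right h2 (abs_nonneg _)
    have a2 : |V| * |E| ≤ V0 * (W * |X|) := mul_le_mul hVabs hE1 (abs_nonneg _) hV00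
    linarith
  have h4 : |θ - (j * k * L) ^ 2 * D * e| * (L * G) ≤
      (j * k * L) ^ 2 * e * ((2 * S * |D| + V0 * W) * |X|) := by
    have e1 : |θ - (j * k * L) ^ 2 * D * e| * (L * G) =
        |(θ - (j * k * L) ^ 2 * D * e) * (L * G)| := by rw [abs_mul, abs_of_pos hLG0]
    rw [e1, hθG, abs_mul, abs_of_nonneg (by positivity : (0:ℝ) ≤ (j * k * L) ^ 2 * e)]
    exact mul_le_mul_of_nonneg_left h3 (by positivity)
  have h5 : |θ - (j * k * L) ^ 2 * D * e| * (1 / 2) ≤ |θ - (j * k * L) ^ 2 * D * e| * (L * G) :=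
    mul_le_mul_of_nonneg_left hLG (abs_nonneg _)
  linarith

theorem e3_add {x t : ℝ} (hx : 0 ≤ x) (ht : 0 ≤ t) :
    exp (exp (exp x)) + t ≤ exp (exp (exp (x + t))) :=
  (add_le_exp (exp_pos _).le ht).trans (Real.exp_le_exp.2
    ((add_le_exp (exp_pos _).le ht).trans (Real.exp_le_exp.2 (add_le_exp hx ht))))

theorem le_e3 (x : ℝ) : x ≤ exp (exp (exp x)) := by
  have h2 : ∀ y : ℝ, y ≤ exp y := fun y => by linarith [Real.add_one_le_exp y]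
  exact (h2 _).trans ((h2 _).trans (h2 _))

theorem thresholds (A0 δ S a κ y c : ℝ) (hA0 : 0 ≤ A0) (hδ : 0 < δ) (hS : 0 ≤ S) (ha : 0 ≤ a)
    (hκ : 0 ≤ κ) (hκy : κ ≤ y) (hy1 : 1 ≤ y)
    (h : exp (exp (exp ((A0 + (1 / δ + (2 * S + 1) + (a + 1))) * y))) < c) :
    κ / δ ≤ c ∧ κ * (2 * S + 1) ≤ c ∧ exp (exp (exp (A0 * y))) + (a * κ + 1) ≤ c := by
  have hA1 : 0 ≤ 1 / δ := by positivity
  have hE : (A0 + (1 / δ + (2 * S + 1) + (a + 1))) * y < c := lt_of_le_of_lt (le_e3 _) h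
  have hy0 : 0 ≤ y := by linarith
  have p1 : 0 ≤ A0 * y := mul_nonneg hA0 hy0
  have p2 : 0 ≤ 1 / δ * y := mul_nonneg hA1 hy0
  have p3 : 0 ≤ S * y := mul_nonneg hS hy0
  have p4 : 0 ≤ a * y := mul_nonneg ha hy0
  have e1 : (A0 + (1 / δ + (2 * S + 1) + (a + 1))) * y =
      A0 * y + (1 / δ * y + (2 * (S * y) + y) + (a * y + y)) := by ring
  rw [e1] at hE h
  refine ⟨?_, ?_, ?_⟩
  · have h1 : κ / δ = 1 / δ * κ := by ring
    have h2 : 1 / δ * κ ≤ 1 / δ * y := mul_le_mul_of_nonneg_left hκy hA1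
    rw [h1]
    linarith
  · have h2 : S * κ ≤ S * y := mul_le_mul_of_nonneg_left hκy hS
    have h3 : κ * (2 * S + 1) = 2 * (S * κ) + κ := by ring
    rw [h3]
    linarith
  · have h2 : a * κ ≤ a * y := mul_le_mul_of_nonneg_left hκy ha
    have h3 : 0 ≤ a * κ := mul_nonneg ha hκ
    have h5 := e3_add (x := A0 * y) (t := a * κ + 1) p1 (by linarith)
    refine h5.trans (le_trans ?_ h.le)
    apply Real.exp_le_exp.2
    apply Real.exp_le_exp.2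
    apply Real.exp_le_exp.2
    linarith

/-- the parameters -/
theorem params (L j k V0 κ D z C1 : ℝ) (hL : 1 ≤ L) (hV0 : 0 ≤ V0) (hκ : 0 ≤ κ) (hz1 : 1 ≤ z)
    (hzk : (j * k) ^ 2 = z ^ 2)
    (hC1 : C1 = L ^ 2 * |D| + L ^ 2 * exp 1 * κ * (L * V0) + 1) :
    |(j * k * L) ^ 2 * D| ≤ C1 * z ^ 4 ∧
      (z ^ 2 * L ^ 2 * exp 1 * κ) * (z * (L * (V0 * z))) ≤ C1 * z ^ 4 ∧ 1 ≤ C1 * z ^ 4 := by
  have he0 : 0 < exp 1 := exp_pos 1
  have hz24 : z ^ 2 ≤ z ^ 4 := pow_le_pow_right₀ hz1 (by norm_num)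
  have hz4 : 1 ≤ z ^ 4 := one_le_pow₀ hz1
  have p1 : 0 ≤ L ^ 2 * |D| := by positivity
  have p2 : 0 ≤ L ^ 2 * exp 1 * κ * (L * V0) := by positivity
  have hC1' : 1 ≤ C1 := by rw [hC1]; linarith
  refine ⟨?_, ?_, ?_⟩
  · have e1 : (j * k * L) ^ 2 * D = z ^ 2 * L ^ 2 * D := by rw [mul_pow, hzk]
    rw [e1, abs_mul, abs_of_nonneg (by positivity : (0 : ℝ) ≤ z ^ 2 * L ^ 2)]
    calc z ^ 2 * L ^ 2 * |D| = z ^ 2 * (L ^ 2 * |D|) := by ring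
      _ ≤ z ^ 4 * (L ^ 2 * |D|) := mul_le_mul_of_nonneg_right hz24 p1
      _ ≤ z ^ 4 * C1 := mul_le_mul_of_nonneg_left (by rw [hC1]; linarith) (by positivity)
      _ = C1 * z ^ 4 := by ring
  · calc (z ^ 2 * L ^ 2 * exp 1 * κ) * (z * (L * (V0 * z)))
        = z ^ 4 * (L ^ 2 * exp 1 * κ * (L * V0)) := by ring
      _ ≤ z ^ 4 * C1 := mul_le_mul_of_nonneg_left (by rw [hC1]; linarith) (by positivity)
      _ = C1 * z ^ 4 := by ring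
  · calc (1 : ℝ) = 1 * 1 := by norm_num
      _ ≤ C1 * z ^ 4 := mul_le_mul hC1' hz4 (by norm_num) (by linarith)

/-- the function at `X` -/
theorem quotient (g : ℝ → ℝ) (α₁ α₂ α₃ L M X : ℝ) (hL : 0 < L) (hX0 : X ≠ 0)
    (hgX : |g X - (α₁ / L * X + α₂ / L * X ^ 2 + α₃ / L * X ^ 3)| ≤ M * X ^ 4) :
    |L * (g X / X) - (α₁ + α₂ * X + α₃ * X ^ 2)| ≤ L * M * |X| ^ 3 := by
  have hXpos : 0 < |X| := abs_pos.2 hX0
  have e1 : X * (L * (g X / X) - (α₁ + α₂ * X + α₃ * X ^ 2)) =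
      L * (g X - (α₁ / L * X + α₂ / L * X ^ 2 + α₃ / L * X ^ 3)) := by
    field_simp
  have e2 : |X| * |L * (g X / X) - (α₁ + α₂ * X + α₃ * X ^ 2)| ≤ |X| * (L * M * |X| ^ 3) := by
    rw [← abs_mul, e1, abs_mul, abs_of_pos hL]
    calc L * |g X - (α₁ / L * X + α₂ / L * X ^ 2 + α₃ / L * X ^ 3)|
        ≤ L * (M * X ^ 4) := mul_le_mul_of_nonneg_left hgX hL.le
      _ = |X| * (L * M * |X| ^ 3) := by
        have : X ^ 4 = |X| ^ 4 := by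
          rw [show (4 : ℕ) = 2 * 2 by norm_num, pow_mul, pow_mul, sq_abs]
        rw [this]; ring
  exact le_of_mul_le_mul_left e2 hXpos

/-- the size of the denominator -/
theorem denom (α₁ α₂ L j k c V0 z E : ℝ) (hα : 1 ≤ α₁) (hL : 1 ≤ L) (hj : 1 ≤ j) (hc : 1 ≤ c)
    (hz1 : 1 ≤ z) (hkz : |k| ≤ z) (hV0 : V0 = |α₁| + |α₂|) (hE : 0 < E)
    (h : E + (|α₂| * |k| + 1) ≤ c) :
    E ≤ j * L * (α₁ * c - α₂ * k) ∧ j * L * (α₁ * c - α₂ * k) ≤ (j * (L * (V0 * z))) * c := by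
  have a2 : α₂ * k ≤ |α₂| * |k| := by rw [← abs_mul]; exact le_abs_self _
  have a2' : -(α₂ * k) ≤ |α₂| * |k| := by rw [← abs_mul]; exact neg_le_abs _
  have hjL : 1 ≤ j * L := by nlinarith
  constructor
  · have a1 : c ≤ α₁ * c := by nlinarith
    have a3 : E + 1 ≤ α₁ * c - α₂ * k := by linarith
    calc E ≤ α₁ * c - α₂ * k := by linarith
      _ ≤ j * L * (α₁ * c - α₂ * k) := le_mul_of_one_le_left (by linarith) hjL
  · have a3 : α₁ * c ≤ |α₁| * c * z := by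
      have h1 : α₁ * c ≤ |α₁| * c := mul_le_mul_of_nonneg_right (le_abs_self _) (by linarith)
      exact h1.trans (le_mul_of_one_le_right (by positivity) hz1)
    have a4 : |α₂| * |k| ≤ |α₂| * z * c := by
      have h1 : |α₂| * |k| ≤ |α₂| * z := mul_le_mul_of_nonneg_left hkz (abs_nonneg _)
      exact h1.trans (le_mul_of_one_le_right (by positivity) hc)
    have a5 : α₁ * c - α₂ * k ≤ V0 * z * c := by
      rw [hV0]
      have e1 : (|α₁| + |α₂|) * z * c = |α₁| * c * z + |α₂| * z * c := by ring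
      rw [e1]
      linarith
    calc j * L * (α₁ * c - α₂ * k) ≤ j * L * (V0 * z * c) :=
          mul_le_mul_of_nonneg_left a5 (by positivity)
      _ = _ := by ring

theorem core_pos (g : ℝ → ℝ) (α₁ α₂ α₃ : ℤ) (L : ℕ) (hL : 1 ≤ L) (hα : 1 ≤ α₁) (M δ : ℝ)
    (hM : 0 ≤ M) (hδ : 0 < δ)
    (hg : ∀ x : ℝ, |x| ≤ δ → |g x - ((α₁ : ℝ) / L * x + (α₂ : ℝ) / L * x ^ 2 +
      (α₃ : ℝ) / L * x ^ 3)| ≤ M * x ^ 4) :
    ∃ A : ℝ, ∀ (k : ℤ) (j c : ℕ) (m : ℤ), k ≠ 0 → 1 ≤ j → 1 ≤ c →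
      (j : ℝ) * exp 1 = m * g (k / c) →
      (c : ℝ) ≤ exp (exp (exp (A * (j * |(k : ℝ)|) ^ 192))) := by
  have hLR : (1 : ℝ) ≤ L := by exact_mod_cast hL
  have hL0 : (0 : ℝ) < L := by linarith
  have hαR : (1 : ℝ) ≤ α₁ := by exact_mod_cast hα
  have he0 : 0 < exp 1 := exp_pos 1
  obtain ⟨S, hS⟩ : ∃ S : ℝ, S = |(α₂ : ℝ)| + |(α₃ : ℝ)| + L * M := ⟨_, rfl⟩
  obtain ⟨D, hD⟩ : ∃ D : ℝ, D = (α₁ : ℝ) * α₃ - (α₂ : ℝ) ^ 2 := ⟨_, rfl⟩
  obtain ⟨V0, hV0⟩ : ∃ V0 : ℝ, V0 = |(α₁ : ℝ)| + |(α₂ : ℝ)| := ⟨_, rfl⟩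
  obtain ⟨κ, hκ⟩ : ∃ κ : ℝ, κ = 2 * (2 * S * |D| + V0 * (|(α₂ : ℝ) * α₃| + L * V0 * M)) := ⟨_, rfl⟩
  have hS0 : 0 ≤ S := by rw [hS]; positivity
  have hV00 : 0 ≤ V0 := by rw [hV0]; positivity
  have hκ0 : 0 ≤ κ := by rw [hκ]; positivity
  obtain ⟨C1, hC1⟩ : ∃ C1 : ℝ, C1 = L ^ 2 * |D| + L ^ 2 * exp 1 * κ * (L * V0) + 1 := ⟨_, rfl⟩
  obtain ⟨A0, hA0⟩ : ∃ A0 : ℝ, A0 = 10 ^ 42 * C1 ^ 48 := ⟨_, rfl⟩
  have hA00 : 0 ≤ A0 := by rw [hA0]; positivity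
  refine ⟨A0 + (1 / δ + (2 * S + 1) + (|(α₂ : ℝ)| + 1)), ?_⟩
  intro k j c m hk hj hc1 h
  by_contra hcon
  push Not at hcon
  have hjR : (1 : ℝ) ≤ j := by exact_mod_cast hj
  have hkR : (1 : ℝ) ≤ |(k : ℝ)| := by
    have : (1 : ℤ) ≤ |k| := Int.one_le_abs hk
    exact_mod_cast this
  have hc1R : (1 : ℝ) ≤ c := by exact_mod_cast hc1
  have hc0 : (0 : ℝ) < c := by linarith
  obtain ⟨z, hz⟩ : ∃ z : ℝ, z = j * |(k : ℝ)| := ⟨_, rfl⟩
  rw [← hz] at hcon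
  have hkz : |(k : ℝ)| ≤ z := by
    rw [hz]
    exact le_mul_of_one_le_left (abs_nonneg _) hjR
  have hz1 : 1 ≤ z := hkR.trans hkz
  have hzy : z ≤ z ^ 192 := le_self_pow₀ hz1 (by norm_num)
  obtain ⟨c1, c2, c3⟩ := thresholds A0 δ S |(α₂ : ℝ)| |(k : ℝ)| (z ^ 192) c hA00 hδ hS0
    (abs_nonneg _) (abs_nonneg _) (hkz.trans hzy) (hz1.trans hzy) hcon
  have hEeq : 10 ^ 42 * (C1 * z ^ 4) ^ 48 = A0 * z ^ 192 := by
    rw [hA0, mul_pow, ← pow_mul, mul_assoc]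
  rw [← hEeq] at c3
  obtain ⟨E, hEd⟩ : ∃ E : ℝ, E = exp (exp (exp (10 ^ 42 * (C1 * z ^ 4) ^ 48))) := ⟨_, rfl⟩
  rw [← hEd] at c3
  have hE0 : 0 < E := by rw [hEd]; exact exp_pos _
  clear hcon hEeq hA00 hA0 hzy
  have hX0 : (k : ℝ) / c ≠ 0 := div_ne_zero (by exact_mod_cast hk) hc0.ne'
  have hXabs : |(k : ℝ) / c| = |(k : ℝ)| / c := by rw [abs_div, abs_of_pos hc0]
  have hXδ : |(k : ℝ) / c| ≤ δ := by
    rw [hXabs, div_le_iff₀ hc0]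
    rw [div_le_iff₀ hδ] at c1
    linarith
  have hgX := hg _ hXδ
  obtain ⟨X, hX⟩ : ∃ X : ℝ, X = (k : ℝ) / c := ⟨_, rfl⟩
  rw [← hX] at hX0 hXabs hXδ hgX h
  have hkX : (k : ℝ) = c * X := by rw [hX]; field_simp
  have hXS : (2 * S + 1) * |X| ≤ 1 := by
    rw [hXabs, ← mul_div_assoc, div_le_one hc0]
    linarith
  have hXpos : 0 < |X| := abs_pos.2 hX0
  have hSX0 : 0 ≤ S * |X| := mul_nonneg hS0 hXpos.le
  have hX1 : |X| ≤ 1 := by linarith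
  have hSX : S * |X| ≤ 1 / 2 := by linarith
  have hG1 := quotient g α₁ α₂ α₃ L M X hL0 hX0 hgX
  have hm : (j : ℝ) * exp 1 = m * (X * (g X / X)) := by
    rw [mul_div_cancel₀ _ hX0]; exact h
  have hest := estimate (α₁ : ℝ) α₂ α₃ L j k c m (exp 1) M X (g X / X) ((α₁ : ℝ) - α₂ * X) D hLR
    hαR hM he0 hc0 hkX hX0 hX1 hG1 (by rw [← hS]; exact hSX) hm rfl hD
  rw [← hS, ← hV0, ← hκ] at hest
  -- the integers
  have hb : ((j * L * (α₁ * c - α₂ * k) : ℤ) : ℝ) = j * L * (c * ((α₁ : ℝ) - α₂ * X)) := by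
    push_cast
    rw [hkX]
    ring
  obtain ⟨hBb, hup⟩ := denom α₁ α₂ L j k c V0 z E hαR hLR hjR hc1R hz1 hkz hV0 hE0 c3
  have hbr : (j : ℝ) * L * ((α₁ : ℝ) * c - α₂ * k) = ((j * L * (α₁ * c - α₂ * k) : ℤ) : ℝ) := by
    push_cast
    ring
  rw [hbr] at hBb hup
  have hbpos : (0 : ℝ) < ((j * L * (α₁ * c - α₂ * k) : ℤ) : ℝ) := lt_of_lt_of_le hE0 hBb
  have hjk2 : ((j : ℝ) * k) ^ 2 = z ^ 2 := by
    rw [hz, mul_pow, mul_pow, sq_abs]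
  have hzk : ((j : ℝ) * k * L) ^ 2 = z ^ 2 * L ^ 2 := by rw [mul_pow, hjk2]
  obtain ⟨q1, q2, q3⟩ := params L j k V0 κ D z C1 hLR hV00 hκ0 hz1 hjk2 hC1
  have hK0 : 0 ≤ (z ^ 2 * (L : ℝ) ^ 2 * exp 1 * κ) * (z * (L * (V0 * z))) := by positivity
  have hR : (((j * k * L) ^ 2 * (α₁ * α₃ - α₂ ^ 2) : ℤ) : ℝ) = ((j : ℝ) * k * L) ^ 2 * D := by
    rw [hD]; push_cast; ring
  refine no_close_int ((j * k * L) ^ 2 * (α₁ * α₃ - α₂ ^ 2))
    ((z ^ 2 * (L : ℝ) ^ 2 * exp 1 * κ) * (z * (L * (V0 * z)))) (C1 * z ^ 4) hK0 q3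
    (by rw [hR]; exact q1) q2 (m * α₁ ^ 2 * k) (j * L * (α₁ * c - α₂ * k))
    (by rw [← hEd]; exact hBb) ?_
  rw [hR, hb]
  have hfin : (z ^ 2 * (L : ℝ) ^ 2 * exp 1 * κ) * |X| ≤
      (z ^ 2 * (L : ℝ) ^ 2 * exp 1 * κ) * (z * (L * (V0 * z))) /
        (j * L * (c * ((α₁ : ℝ) - α₂ * X))) := by
    rw [← hb, mul_div_assoc]
    apply mul_le_mul_of_nonneg_left _ (by positivity)
    rw [hXabs, div_le_div_iff₀ hc0 hbpos]
    calc |(k : ℝ)| * ((j * L * (α₁ * c - α₂ * k) : ℤ) : ℝ)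
        ≤ |(k : ℝ)| * ((j * (L * (V0 * z))) * c) :=
          mul_le_mul_of_nonneg_left hup (abs_nonneg _)
      _ = z * (L * (V0 * z)) * c := by rw [hz]; ring
  refine le_trans (le_of_eq ?_) (hest.trans (le_trans (le_of_eq ?_) hfin))
  · push_cast
    rfl
  · rw [hzk]

theorem core (g : ℝ → ℝ) (α₁ α₂ α₃ : ℤ) (L : ℕ) (hL : 1 ≤ L) (hα : α₁ ≠ 0) (M δ : ℝ)
    (hM : 0 ≤ M) (hδ : 0 < δ)
    (hg : ∀ x : ℝ, |x| ≤ δ → |g x - ((α₁ : ℝ) / L * x + (α₂ : ℝ) / L * x ^ 2 +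
      (α₃ : ℝ) / L * x ^ 3)| ≤ M * x ^ 4) :
    ∃ A : ℝ, ∀ (k : ℤ) (j c : ℕ) (m : ℤ), k ≠ 0 → 1 ≤ j → 1 ≤ c →
      (j : ℝ) * exp 1 = m * g (k / c) →
      (c : ℝ) ≤ exp (exp (exp (A * (j * |(k : ℝ)|) ^ 192))) := by
  rcases lt_or_gt_of_ne hα with h | h
  · obtain ⟨A, hA⟩ := core_pos (fun x => -g x) (-α₁) (-α₂) (-α₃) L hL (by omega) M δ hM hδ
      (by
        intro x hx
        refine le_trans (le_of_eq ?_) (hg x hx)
        rw [← abs_neg]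
        congr 1
        push_cast
        ring)
    refine ⟨A, fun k j c m hk hj hc h2 => hA k j c (-m) hk hj hc ?_⟩
    rw [h2]
    push_cast
    ring
  · exact core_pos g α₁ α₂ α₃ L hL (by omega) M δ hM hδ hg

/-- the analytic form -/
theorem main (g : ℝ → ℝ) (A₁ A₂ A₃ : ℚ) (h1 : A₁ ≠ 0)
    (hg : (fun x : ℝ => g x - (A₁ * x + A₂ * x ^ 2 + A₃ * x ^ 3)) =O[𝓝 0] fun x : ℝ => x ^ 4) :
    ∃ A : ℝ, ∀ (k : ℤ) (j c : ℕ) (m : ℤ), k ≠ 0 → 1 ≤ j → 1 ≤ c →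
      (j : ℝ) * exp 1 = m * g (k / c) →
      (c : ℝ) ≤ exp (exp (exp (A * (j * |(k : ℝ)|) ^ 192))) := by
  obtain ⟨M, hM, hM'⟩ := hg.exists_nonneg
  rw [isBigOWith_iff] at hM'
  obtain ⟨ε, hε, hball⟩ := Metric.eventually_nhds_iff.1 hM'
  set L : ℕ := A₁.den * A₂.den * A₃.den with hL
  have d1 := A₁.den_pos
  have d2 := A₂.den_pos
  have d3 := A₃.den_pos
  have hL0 : 0 < L := by positivity
  have hcast : ∀ (A : ℚ) (r : ℕ), (L : ℚ) = A.den * r → ((A.num * r : ℤ) : ℝ) / L = (A : ℝ) := by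
    intro A r hr
    have h2 : ((A.num * r : ℤ) : ℚ) / L = A := by
      rw [hr]
      push_cast
      have h3 : (A.den : ℚ) ≠ 0 := by exact_mod_cast A.den_pos.ne'
      have h4 : (r : ℚ) ≠ 0 := by
        intro h
        rw [h, mul_zero] at hr
        have : L = 0 := by exact_mod_cast hr
        omega
      rw [mul_div_mul_right _ _ h4]
      exact Rat.num_div_den A
    have h5 : (((A.num * r : ℤ) : ℚ) / L : ℚ) = A := h2
    calc ((A.num * r : ℤ) : ℝ) / L = ((((A.num * r : ℤ) : ℚ) / L : ℚ) : ℝ) := by push_cast; ring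
      _ = _ := by rw [h5]
  have e1 := hcast A₁ (A₂.den * A₃.den) (by rw [hL]; push_cast; ring)
  have e2 := hcast A₂ (A₁.den * A₃.den) (by rw [hL]; push_cast; ring)
  have e3 := hcast A₃ (A₁.den * A₂.den) (by rw [hL]; push_cast; ring)
  refine core g (A₁.num * (A₂.den * A₃.den : ℕ)) (A₂.num * (A₁.den * A₃.den : ℕ))
    (A₃.num * (A₁.den * A₂.den : ℕ)) L hL0 ?_ M (ε / 2) hM (by positivity) ?_
  · apply mul_ne_zero
    · exact Rat.num_ne_zero.2 h1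
    · have : A₂.den * A₃.den ≠ 0 := by positivity
      exact_mod_cast this
  · intro x hx
    rw [e1, e2, e3]
    have h2 : dist x 0 < ε := by
      rw [Real.dist_eq, sub_zero]
      linarith
    have h3 := hball h2
    rw [Real.norm_eq_abs, Real.norm_eq_abs, abs_pow] at h3
    have h4 : |x| ^ 4 = x ^ 4 := by
      rw [show (4 : ℕ) = 2 * 2 by norm_num, pow_mul, pow_mul, sq_abs]
    rw [h4] at h3
    exact h3

end Pool.Agent.J4H85.EE
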